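import Mathlib

/-!
# The main integral inequality
-/

set_option autoImplicit false

namespace Pool.Agent.Helper590_Face

open MeasureTheory Set Real

section Scalar

theorem exp_le_quad (t : ℝ) : exp t ≤ 1 + t + t ^ 2 * exp |t| := by
  have h1 : exp t - 1 - t ≤ t * (exp t - 1) := by
    have h2 : 1 - t ≤ exp (-t) := by
      have := Real.add_one_le_exp (-t)
      linarith
    have h3 : exp t * (1 - t) ≤ exp t * exp (-t) := by
      exact mul_le_mul_of_nonneg_left h2 (exp_pos t).le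
    rw [← Real.exp_add] at h3
    simp at h3
    linarith
  have h4 : |exp t - 1| ≤ |t| * exp |t| := by
    rcases le_total 0 t with h | h
    · rw [abs_of_nonneg h, abs_of_nonneg (by linarith [Real.one_le_exp h])]
      have h2 : 1 - t ≤ exp (-t) := by
        have := Real.add_one_le_exp (-t)
        linarith
      have h3 : exp t * (1 - t) ≤ exp t * exp (-t) := by
        exact mul_le_mul_of_nonneg_left h2 (exp_pos t).le
      rw [← Real.exp_add] at h3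
      simp at h3
      linarith
    · rw [abs_of_nonpos h, abs_of_nonpos (by linarith [Real.exp_le_one_iff.mpr h])]
      have h2 := Real.add_one_le_exp t
      have h3 : 1 ≤ exp (-t) := Real.one_le_exp (by linarith)
      nlinarith
  have h5 : t * (exp t - 1) ≤ |t| * (|t| * exp |t|) := by
    calc t * (exp t - 1) ≤ |t * (exp t - 1)| := le_abs_self _
      _ = |t| * |exp t - 1| := abs_mul _ _
      _ ≤ |t| * (|t| * exp |t|) := by gcongr
  have h6 : |t| * (|t| * exp |t|) = t ^ 2 * exp |t| := by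
    rw [← mul_assoc, abs_mul_abs_self, sq]
  linarith

theorem mul_exp_half_le {u : ℝ} (hu : 0 ≤ u) : u * exp (-(u / 2)) ≤ 1 - exp (-u) := by
  have h1 : u / 2 ≤ sinh (u / 2) := Real.self_le_sinh_iff.mpr (by linarith)
  rw [Real.sinh_eq] at h1
  have h2 : 0 < exp (-(u / 2)) := exp_pos _
  have h3 : exp (u / 2) * exp (-(u / 2)) = 1 := by rw [← Real.exp_add]; simp
  have h4 : exp (-(u / 2)) * exp (-(u / 2)) = exp (-u) := by rw [← Real.exp_add]; ring_nf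
  nlinarith

theorem half_le_one_sub_exp {u : ℝ} (hu : 0 ≤ u) (hu1 : u ≤ 1) : u / 2 ≤ 1 - exp (-u) := by
  have h1 : 1 + u ≤ exp u := by linarith [Real.add_one_le_exp u]
  have h2 : exp (-u) = (exp u)⁻¹ := Real.exp_neg u
  have h3 : (exp u)⁻¹ ≤ (1 + u)⁻¹ := by
    apply inv_anti₀ (by linarith) h1
  have h4 : (1 + u)⁻¹ ≤ 1 - u / 2 := by
    rw [inv_le_iff_one_le_mul₀ (by linarith)]
    nlinarith
  linarith

/-- pointwise estimate, `ρ` small -/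
theorem pw_small {t ρ G δ w : ℝ} (ht : 0 ≤ t) (hρ : 0 ≤ ρ) (hδ : 0 ≤ δ) (hδ1 : δ ≤ 1 / 7)
    {r : ℝ} (hr0 : 0 ≤ r) (hr : r ≤ 1) (hρr : ρ ≤ r * t) (hG : |G| ≤ δ * t * ρ) (hw : 0 ≤ w)
    (hwt : w ≤ exp (-(t ^ 2 / 2))) :
    w * exp (-G - ρ ^ 2 / 12) ≤
      w * (exp (-(ρ ^ 2 / 12)) - G) + 300 * δ * r ^ 2 * exp (-(t ^ 2 / 8)) := by
  set H := ρ ^ 2 / 12 with hH
  have hH0 : 0 ≤ H := by positivity
  have h1 := exp_le_quad (-G)
  rw [abs_neg] at h1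
  have heH : 0 < exp (-H) := exp_pos _
  have heH1 : exp (-H) ≤ 1 := by
    rw [Real.exp_le_one_iff]; linarith
  -- third term
  have h2 : |G| ≤ 6 * δ ^ 2 * t ^ 2 + H / 2 := by
    have : δ * t * ρ ≤ 6 * δ ^ 2 * t ^ 2 + H / 2 := by
      rw [hH]
      nlinarith [sq_nonneg (12 * δ * t - ρ)]
    linarith
  have h3 : G ^ 2 ≤ 12 * δ ^ 2 * t ^ 2 * H := by
    have h4 : |G| ^ 2 ≤ (δ * t * ρ) ^ 2 := by
      gcongr
    rw [sq_abs] at h4
    calc G ^ 2 ≤ (δ * t * ρ) ^ 2 := h4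
      _ = 12 * δ ^ 2 * t ^ 2 * H := by rw [hH]; ring
  have h5 : exp |G| * exp (-H) ≤ exp (6 * δ ^ 2 * t ^ 2) * exp (-(H / 2)) := by
    rw [← Real.exp_add, ← Real.exp_add]
    apply Real.exp_le_exp.mpr
    linarith
  have h6 : exp (6 * δ ^ 2 * t ^ 2) ≤ exp (t ^ 2 / 8) := by
    apply Real.exp_le_exp.mpr
    have h61 : δ ^ 2 ≤ 1 / 49 := by nlinarith
    have h62 : δ ^ 2 * t ^ 2 ≤ 1 / 49 * t ^ 2 := by gcongr
    linarith [sq_nonneg t]
  have h7 : G ^ 2 * exp |G| * exp (-H) ≤ 12 * δ ^ 2 * t ^ 2 * exp (t ^ 2 / 8) * (1 - exp (-H)) := by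
    calc G ^ 2 * exp |G| * exp (-H) = G ^ 2 * (exp |G| * exp (-H)) := by ring
      _ ≤ (12 * δ ^ 2 * t ^ 2 * H) * (exp (6 * δ ^ 2 * t ^ 2) * exp (-(H / 2))) := by
          gcongr
      _ = 12 * δ ^ 2 * t ^ 2 * exp (6 * δ ^ 2 * t ^ 2) * (H * exp (-(H / 2))) := by ring
      _ ≤ 12 * δ ^ 2 * t ^ 2 * exp (t ^ 2 / 8) * (1 - exp (-H)) := by
          have := mul_exp_half_le hH0
          gcongr
  -- second term
  have h8 : -G * exp (-H) ≤ -G + δ * t ^ 2 * (1 - exp (-H)) := by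
    have h9 : G * (1 - exp (-H)) ≤ |G| * (1 - exp (-H)) :=
      mul_le_mul_of_nonneg_right (le_abs_self G) (by linarith)
    have h10 : |G| * (1 - exp (-H)) ≤ δ * t ^ 2 * (1 - exp (-H)) := by
      apply mul_le_mul_of_nonneg_right _ (by linarith)
      calc |G| ≤ δ * t * ρ := hG
        _ ≤ δ * t * (r * t) := by gcongr
        _ ≤ δ * t * (1 * t) := by gcongr
        _ = δ * t ^ 2 := by ring
    have h10' : -G * exp (-H) = -G + G * (1 - exp (-H)) := by ring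
    linarith
  have h11 : exp (-G - H) ≤ exp (-H) - G + (δ * t ^ 2 + 12 * δ ^ 2 * t ^ 2 * exp (t ^ 2 / 8)) *
      (1 - exp (-H)) := by
    have h12 : exp (-G - H) = exp (-G) * exp (-H) := by rw [← Real.exp_add]; ring_nf
    rw [h12]
    calc exp (-G) * exp (-H) ≤ (1 + -G + (-G) ^ 2 * exp |G|) * exp (-H) := by gcongr
      _ = exp (-H) + -G * exp (-H) + G ^ 2 * exp |G| * exp (-H) := by ring
      _ ≤ exp (-H) + (-G + δ * t ^ 2 * (1 - exp (-H))) +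
          12 * δ ^ 2 * t ^ 2 * exp (t ^ 2 / 8) * (1 - exp (-H)) := by gcongr
      _ = _ := by ring
  -- bound the coefficient
  have h13 : δ * t ^ 2 + 12 * δ ^ 2 * t ^ 2 * exp (t ^ 2 / 8) ≤ 3 * δ * t ^ 2 * exp (t ^ 2 / 8) := by
    have h14 : 1 ≤ exp (t ^ 2 / 8) := Real.one_le_exp (by positivity)
    have h15 : δ * t ^ 2 ≤ δ * t ^ 2 * exp (t ^ 2 / 8) :=
      le_mul_of_one_le_right (by positivity) h14
    have h16 : 12 * δ ^ 2 * t ^ 2 * exp (t ^ 2 / 8) ≤ 2 * δ * t ^ 2 * exp (t ^ 2 / 8) := by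
      have h17 : 12 * δ ^ 2 ≤ 2 * δ := by nlinarith
      gcongr
    linarith
  have h18 : 1 - exp (-H) ≤ r ^ 2 * t ^ 2 / 12 := by
    have h19 : 1 - H ≤ exp (-H) := by linarith [Real.add_one_le_exp (-H)]
    have h20 : ρ ^ 2 ≤ (r * t) ^ 2 := by gcongr
    have h21 : H ≤ r ^ 2 * t ^ 2 / 12 := by
      rw [hH, ← mul_pow]
      gcongr
    linarith
  have h22 : (δ * t ^ 2 + 12 * δ ^ 2 * t ^ 2 * exp (t ^ 2 / 8)) * (1 - exp (-H)) ≤
      δ * r ^ 2 * t ^ 4 * exp (t ^ 2 / 8) := by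
    calc (δ * t ^ 2 + 12 * δ ^ 2 * t ^ 2 * exp (t ^ 2 / 8)) * (1 - exp (-H))
        ≤ (3 * δ * t ^ 2 * exp (t ^ 2 / 8)) * (r ^ 2 * t ^ 2 / 12) := by
          apply mul_le_mul h13 h18 (by linarith) (by positivity)
      _ = (δ * r ^ 2 * t ^ 4 * exp (t ^ 2 / 8)) / 4 := by ring
      _ ≤ δ * r ^ 2 * t ^ 4 * exp (t ^ 2 / 8) := by
          have : 0 ≤ δ * r ^ 2 * t ^ 4 * exp (t ^ 2 / 8) := by positivity
          linarith
  have h23 : t ^ 4 ≤ 256 * exp (t ^ 2 / 8) := by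
    have h24 : t ^ 2 / 16 ≤ exp (t ^ 2 / 16) := by
      linarith [Real.add_one_le_exp (t ^ 2 / 16)]
    have h25 : exp (t ^ 2 / 8) = exp (t ^ 2 / 16) ^ 2 := by
      rw [sq (exp _), ← Real.exp_add]; ring_nf
    rw [h25]
    calc t ^ 4 = 256 * (t ^ 2 / 16) ^ 2 := by ring
      _ ≤ 256 * exp (t ^ 2 / 16) ^ 2 := by gcongr
  have h27 : exp (t ^ 2 / 8) * exp (t ^ 2 / 8) * exp (-(t ^ 2 / 2)) ≤ exp (-(t ^ 2 / 8)) := by
    rw [← Real.exp_add, ← Real.exp_add]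
    apply Real.exp_le_exp.mpr
    linarith [sq_nonneg t]
  have h28 : w * (δ * r ^ 2 * t ^ 4 * exp (t ^ 2 / 8)) ≤ 300 * δ * r ^ 2 * exp (-(t ^ 2 / 8)) := by
    calc w * (δ * r ^ 2 * t ^ 4 * exp (t ^ 2 / 8))
        ≤ exp (-(t ^ 2 / 2)) * (δ * r ^ 2 * t ^ 4 * exp (t ^ 2 / 8)) := by gcongr
      _ ≤ exp (-(t ^ 2 / 2)) * (δ * r ^ 2 * (256 * exp (t ^ 2 / 8)) * exp (t ^ 2 / 8)) := by
          gcongr
      _ = 256 * δ * r ^ 2 * (exp (t ^ 2 / 8) * exp (t ^ 2 / 8) * exp (-(t ^ 2 / 2))) := by ring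
      _ ≤ 256 * δ * r ^ 2 * exp (-(t ^ 2 / 8)) := by gcongr
      _ ≤ 300 * δ * r ^ 2 * exp (-(t ^ 2 / 8)) := by gcongr; norm_num
  calc w * exp (-G - H)
      ≤ w * (exp (-H) - G + δ * r ^ 2 * t ^ 4 * exp (t ^ 2 / 8)) := by
        gcongr
        linarith
    _ = w * (exp (-H) - G) + w * (δ * r ^ 2 * t ^ 4 * exp (t ^ 2 / 8)) := by ring
    _ ≤ _ := by linarith

/-- pointwise estimate, general `ρ` -/
theorem pw_large {t ρ G δ w : ℝ} (hδ : 0 ≤ δ) (hδ1 : δ ≤ 1 / 7)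
    (hG : |G| ≤ δ * t * ρ) (hw : 0 ≤ w) (hwt : w ≤ exp (-(t ^ 2 / 2))) :
    w * exp (-G - ρ ^ 2 / 12) ≤
      w * exp (-(ρ ^ 2 / 24)) + 48 * δ * exp (-(t ^ 2 / 8)) := by
  have h2 : -G - ρ ^ 2 / 12 ≤ 6 * δ ^ 2 * t ^ 2 - ρ ^ 2 / 24 := by
    have : δ * t * ρ ≤ 6 * δ ^ 2 * t ^ 2 + ρ ^ 2 / 24 := by
      nlinarith [sq_nonneg (12 * δ * t - ρ)]
    have := neg_abs_le G
    linarith
  set u := 6 * δ ^ 2 * t ^ 2 with hu
  have hu0 : 0 ≤ u := by positivity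
  have h3 : exp u ≤ 1 + u * exp u := by
    have h2 : 1 - u ≤ exp (-u) := by
      have := Real.add_one_le_exp (-u)
      linarith
    have h3 : exp u * (1 - u) ≤ exp u * exp (-u) := by
      exact mul_le_mul_of_nonneg_left h2 (exp_pos u).le
    rw [← Real.exp_add] at h3
    simp at h3
    linarith
  have h61 : δ ^ 2 ≤ 1 / 49 := by nlinarith
  have h6 : exp u ≤ exp (t ^ 2 / 8) := by
    apply Real.exp_le_exp.mpr
    have h62 : δ ^ 2 * t ^ 2 ≤ 1 / 49 * t ^ 2 := by gcongr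
    rw [hu]
    linarith [sq_nonneg t]
  have h7 : t ^ 2 ≤ 8 * exp (t ^ 2 / 8) := by
    linarith [Real.add_one_le_exp (t ^ 2 / 8)]
  have h8 : u * exp u ≤ 48 * δ * (exp (t ^ 2 / 8) * exp (t ^ 2 / 8)) := by
    have h9 : 6 * δ ^ 2 * t ^ 2 ≤ 6 * δ * (8 * exp (t ^ 2 / 8)) := by
      have : δ ^ 2 ≤ δ := by nlinarith
      gcongr
    calc u * exp u ≤ (6 * δ * (8 * exp (t ^ 2 / 8))) * exp (t ^ 2 / 8) := by gcongr
      _ = _ := by ring
  have h27 : exp (t ^ 2 / 8) * exp (t ^ 2 / 8) * exp (-(t ^ 2 / 2)) ≤ exp (-(t ^ 2 / 8)) := by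
    rw [← Real.exp_add, ← Real.exp_add]
    apply Real.exp_le_exp.mpr
    linarith [sq_nonneg t]
  have h28 : w * (u * exp u) ≤ 48 * δ * exp (-(t ^ 2 / 8)) := by
    calc w * (u * exp u) ≤ exp (-(t ^ 2 / 2)) * (48 * δ * (exp (t ^ 2 / 8) * exp (t ^ 2 / 8))) := by
          gcongr
      _ = 48 * δ * (exp (t ^ 2 / 8) * exp (t ^ 2 / 8) * exp (-(t ^ 2 / 2))) := by ring
      _ ≤ _ := by gcongr
  have h29 : exp (-(ρ ^ 2 / 24)) ≤ 1 := by
    rw [Real.exp_le_one_iff]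
    have := sq_nonneg ρ
    linarith
  calc w * exp (-G - ρ ^ 2 / 12) ≤ w * exp (u - ρ ^ 2 / 24) := by gcongr
    _ = w * (exp u * exp (-(ρ ^ 2 / 24))) := by rw [← Real.exp_add]; ring_nf
    _ ≤ w * ((1 + u * exp u) * exp (-(ρ ^ 2 / 24))) := by gcongr
    _ = w * exp (-(ρ ^ 2 / 24)) + w * (u * exp u) * exp (-(ρ ^ 2 / 24)) := by ring
    _ ≤ w * exp (-(ρ ^ 2 / 24)) + w * (u * exp u) * 1 := by gcongr
    _ ≤ _ := by linarith

end Scalar

end Pool.Agent.Helper590_Face
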