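import Mathlib

/-!
# Auerbach bases
-/

set_option autoImplicit false

namespace Pool.Agent.Helper590_Face

open Set Metric

theorem auerbach {m : ℕ} (M : (Fin m → ℝ) → ℝ) (hc : Continuous M)
    (hadd : ∀ x y, M (x + y) ≤ M x + M y) (hsm : ∀ (c : ℝ) x, M (c • x) = |c| * M x)
    (hdef : ∀ x, M x = 0 → x = 0) :
    ∃ g : (Fin m → ℝ) ≃ₗ[ℝ] (Fin m → ℝ), (∀ t, ‖t‖ ≤ M (g t)) ∧ (∀ t, M (g t) ≤ m * ‖t‖) ∧
      ∀ k, M (g (Pi.single k 1)) ≤ 1 := by
  classical
  have h0 : M 0 = 0 := by
    have := hsm 0 0
    simpa using this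
  have hneg : ∀ x, M (-x) = M x := by
    intro x
    have := hsm (-1) x
    simpa using this
  have hnn : ∀ x, 0 ≤ M x := by
    intro x
    have h1 := hadd x (-x)
    rw [add_neg_cancel, h0, hneg] at h1
    linarith
  -- lower bound
  obtain ⟨c, hc0, hcM⟩ : ∃ c : ℝ, 0 < c ∧ ∀ x, c * ‖x‖ ≤ M x := by
    rcases (sphere (0 : Fin m → ℝ) 1).eq_empty_or_nonempty with he | hne
    · refine ⟨1, one_pos, fun x => ?_⟩
      have hx : x = 0 := by
        by_contra hx
        have hxn : 0 < ‖x‖ := norm_pos_iff.mpr hx
        have : ‖x‖⁻¹ • x ∈ sphere (0 : Fin m → ℝ) 1 := by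
          rw [mem_sphere, dist_zero_right, norm_smul, norm_inv, norm_norm, inv_mul_cancel₀ hxn.ne']
        rw [he] at this
        exact this
      simp [hx, h0]
    · obtain ⟨x₀, hx₀, hmin⟩ := (isCompact_sphere (0 : Fin m → ℝ) 1).exists_isMinOn hne
        hc.continuousOn
      have hx₀' : ‖x₀‖ = 1 := by simpa using hx₀
      have hpos : 0 < M x₀ := by
        refine lt_of_le_of_ne (hnn _) (fun h => ?_)
        have := hdef _ h.symm
        rw [this] at hx₀'
        simp at hx₀'
      refine ⟨M x₀, hpos, fun x => ?_⟩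
      rcases eq_or_ne x 0 with rfl | hx
      · simp [h0]
      · have hxn : 0 < ‖x‖ := norm_pos_iff.mpr hx
        have h1 : M x₀ ≤ M (‖x‖⁻¹ • x) := by
          apply hmin
          rw [mem_sphere, dist_zero_right, norm_smul, norm_inv, norm_norm, inv_mul_cancel₀ hxn.ne']
        rw [hsm, abs_of_pos (inv_pos.mpr hxn)] at h1
        have := mul_le_mul_of_nonneg_right h1 hxn.le
        rw [mul_comm (‖x‖⁻¹), mul_assoc, inv_mul_cancel₀ hxn.ne', mul_one] at this
        exact this
  set B : Set (Fin m → ℝ) := {x | M x ≤ 1} with hB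
  have hBc : IsCompact B := by
    refine Metric.isCompact_of_isClosed_isBounded (isClosed_le hc continuous_const) ?_
    refine (Metric.isBounded_closedBall (x := (0 : Fin m → ℝ)) (r := 1 / c)).subset ?_
    intro x hx
    rw [mem_closedBall, dist_zero_right, le_div_iff₀ hc0]
    have := hcM x
    have hx' : M x ≤ 1 := hx
    linarith
  have hS : IsCompact (Set.pi univ (fun _ : Fin m => B)) := isCompact_univ_pi fun _ => hBc
  obtain ⟨A, hA, hmax⟩ := hS.exists_isMaxOn ⟨0, fun i _ => by simp [hB, h0]⟩
    (f := fun A : Fin m → (Fin m → ℝ) => |(Matrix.of A).det|) (by fun_prop)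
  have hAB : ∀ k, M (A k) ≤ 1 := fun k => hA k (mem_univ k)
  have hmax' : ∀ A' : Fin m → (Fin m → ℝ), (∀ k, M (A' k) ≤ 1) →
      |(Matrix.of A').det| ≤ |(Matrix.of A).det| := fun A' hA' => hmax (fun k _ => hA' k)
  have hdet : 0 < |(Matrix.of A).det| := by
    set s : ℝ := 1 / (1 + ∑ k : Fin m, M (Pi.single k 1)) with hs
    have hsum : 0 ≤ ∑ k : Fin m, M (Pi.single k 1) := Finset.sum_nonneg fun k _ => hnn _
    have hs0 : 0 < s := by positivity
    have h1 := hmax' (fun k => s • Pi.single k 1) (by
      intro k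
      rw [hsm, abs_of_pos hs0, hs, one_div, inv_mul_le_iff₀ (by positivity)]
      have : M (Pi.single k 1) ≤ ∑ k : Fin m, M (Pi.single k 1) :=
        Finset.single_le_sum (f := fun k : Fin m => M (Pi.single k 1)) (fun k _ => hnn _)
          (Finset.mem_univ k)
      linarith)
    have h2 : (Matrix.of fun k : Fin m => s • (Pi.single k 1 : Fin m → ℝ))
        = s • (1 : Matrix (Fin m) (Fin m) ℝ) := by
      ext i j
      simp [Matrix.one_apply, Pi.single_apply, eq_comm]
    rw [h2, Matrix.det_smul, Matrix.det_one, mul_one] at h1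
    refine lt_of_lt_of_le ?_ h1
    have : 0 < s ^ Fintype.card (Fin m) := by positivity
    exact abs_pos.mpr this.ne'
  let f : (Fin m → ℝ) →ₗ[ℝ] (Fin m → ℝ) := Matrix.toLin' (Matrix.of A).transpose
  have hf : ∀ t, f t = ∑ k, t k • A k := by
    intro t
    ext i
    simp [f, Matrix.toLin'_apply, Matrix.mulVec, dotProduct, mul_comm]
  have hlow : ∀ t, ‖t‖ ≤ M (f t) := by
    intro t
    rw [pi_norm_le_iff_of_nonneg (hnn _)]
    intro k
    have h1 : ((Matrix.of A).updateRow k (f t)).det = t k * (Matrix.of A).det := by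
      have := Matrix.det_updateRow_sum (Matrix.of A) k t
      rw [smul_eq_mul] at this
      rw [← this, hf]
      rfl
    rcases eq_or_ne (M (f t)) 0 with h2 | h2
    · have h3 := hdef _ h2
      rw [h3] at h1
      have h4 : ((Matrix.of A).updateRow k 0).det = 0 :=
        Matrix.det_eq_zero_of_row_eq_zero k (by simp)
      rw [h4] at h1
      have h5 : t k = 0 := by
        rcases mul_eq_zero.mp h1.symm with h | h
        · exact h
        · rw [h] at hdet
          simp at hdet
      rw [h5, h2]
      simp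
    · have h2' : 0 < M (f t) := lt_of_le_of_ne (hnn _) h2.symm
      have h3 := hmax' (Function.update A k ((M (f t))⁻¹ • f t)) (by
        intro j
        by_cases hj : j = k
        · subst hj
          rw [Function.update_self, hsm, abs_of_pos (inv_pos.mpr h2'), inv_mul_cancel₀ h2]
        · rw [Function.update_of_ne hj]
          exact hAB j)
      have h4 : Matrix.of (Function.update A k ((M (f t))⁻¹ • f t))
          = (Matrix.of A).updateRow k ((M (f t))⁻¹ • f t) := rfl
      rw [h4, Matrix.det_updateRow_smul, h1, abs_mul, abs_of_pos (inv_pos.mpr h2'), abs_mul] at h3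
      rw [Real.norm_eq_abs]
      have h5 : |t k| * |(Matrix.of A).det| ≤ M (f t) * |(Matrix.of A).det| := by
        have := mul_le_mul_of_nonneg_left h3 h2'.le
        rw [← mul_assoc, mul_inv_cancel₀ h2, one_mul] at this
        exact this
      exact le_of_mul_le_mul_right h5 hdet
  have hinj : Function.Injective f := by
    rw [injective_iff_map_eq_zero]
    intro t ht
    have := hlow t
    rw [ht, h0] at this
    exact norm_le_zero_iff.mp this
  refine ⟨LinearEquiv.ofInjectiveEndo f hinj, ?_, ?_, ?_⟩
  · intro t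
    exact hlow t
  · intro t
    change M (f t) ≤ _
    rw [hf]
    have hsumle : ∀ (s : Finset (Fin m)) (u : Fin m → (Fin m → ℝ)),
        M (∑ k ∈ s, u k) ≤ ∑ k ∈ s, M (u k) := by
      intro s u
      induction s using Finset.induction_on with
      | empty => simp [h0]
      | insert a s ha ih =>
        rw [Finset.sum_insert ha, Finset.sum_insert ha]
        exact (hadd _ _).trans (by gcongr)
    calc M (∑ k, t k • A k) ≤ ∑ k, M (t k • A k) := hsumle _ _
      _ ≤ ∑ _k : Fin m, ‖t‖ := by
          refine Finset.sum_le_sum fun k _ => ?_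
          rw [hsm]
          have h1 := norm_le_pi_norm t k
          rw [Real.norm_eq_abs] at h1
          calc |t k| * M (A k) ≤ ‖t‖ * 1 := by
                have := hAB k
                have := hnn (A k)
                gcongr
            _ = ‖t‖ := mul_one _
      _ = m * ‖t‖ := by simp
  · intro k
    change M (f (Pi.single k 1)) ≤ 1
    rw [hf]
    have : ∑ j, (Pi.single k 1 : Fin m → ℝ) j • A j = A k := by
      simp [Pi.single_apply]
    rw [this]
    exact hAB k

end Pool.Agent.Helper590_Face
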