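import Pool.Agent.Helper590_Face.Star
import Pool.Agent.Helper590_Face.Auer

/-!
# The contracting projection
-/

set_option autoImplicit false

namespace Pool.Agent.Helper590_Face

open MeasureTheory Set Real Metric Module
open scoped Pointwise

variable {m n : ℕ}

theorem sum_jj_self {p : ℝ} (hp : 1 < p) (hp2 : p < 2) (L : (Fin m → ℝ) →ₗ[ℝ] (Fin n → ℝ))
    (x : Fin m → ℝ) : ∑ i, jj p L x i * L x i = nrm p (L x) ^ 2 := by
  have hp0 : 0 < p := by linarith
  have h1 : ∀ i, jj p L x i * L x i = nrm p (L x) ^ (2 - p) * |L x i| ^ p := by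
    intro i
    rw [jj, sp]
    have h2 : |L x i| ^ (p - 2) * L x i * L x i = |L x i| ^ p := by
      rcases eq_or_ne (L x i) 0 with h | h
      · rw [h, abs_zero, Real.zero_rpow hp0.ne', mul_zero]
      · have h3 : 0 < |L x i| := abs_pos.mpr h
        rw [mul_assoc, ← abs_mul_abs_self (L x i), ← sq, ← Real.rpow_natCast, ← Real.rpow_add h3]
        norm_num
    rw [mul_assoc, h2]
  simp only [h1]
  rw [← Finset.mul_sum, ← nrm_rpow hp0]
  rcases (nrm_nonneg p (L x)).eq_or_lt with h | h
  · rw [← h, Real.zero_rpow (by linarith)]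
    simp
  · rw [← Real.rpow_add h]
    have : 2 - p + p = 2 := by ring
    rw [this, Real.rpow_two]

/-- volume of the unit ball from the Gaussian type integral -/
theorem vol_eq {p : ℝ} (hp : 1 ≤ p) (hm : 0 < m) (L : (Fin m → ℝ) →ₗ[ℝ] (Fin n → ℝ))
    (hL : Function.Injective L) :
    volume {y | nrm p (L y) ≤ 1} = (ENNReal.ofReal |√2 ^ m|)⁻¹ *
      ENNReal.ofReal ((∫ x, exp (-(nrm p (L x) ^ 2 / 2))) / Real.Gamma ((m : ℝ) / 2 + 1)) := by
  have : Nonempty (Fin m) := ⟨⟨0, hm⟩⟩
  have hp0 : 0 < p := by linarith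
  have h2 : (0 : ℝ) < √2 := by positivity
  set g : (Fin m → ℝ) → ℝ := fun x => nrm p (L x) / √2 with hg
  have g1 : g 0 = 0 := by simp [hg, nrm_zero hp0]
  have g2 : ∀ x, g (-x) = g x := by
    intro x
    simp [hg, nrm_neg]
  have g3 : ∀ x y, g (x + y) ≤ g x + g y := by
    intro x y
    simp only [hg, map_add]
    rw [← add_div]
    have := nrm_add_le hp (L x) (L y)
    gcongr
  have g4 : ∀ {x}, g x = 0 → x = 0 := by
    intro x hx
    have h3 : nrm p (L x) = 0 := by
      simp only [hg] at hx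
      rcases div_eq_zero_iff.mp hx with h | h
      · exact h
      · exact absurd h h2.ne'
    have h4 := nrm_eq_zero hp0 h3
    exact (injective_iff_map_eq_zero L).mp hL x h4
  have g5 : ∀ (r : ℝ) x, g (r • x) ≤ |r| * g x := by
    intro r x
    simp only [hg, map_smul]
    rw [nrm_smul hp0, mul_div_assoc]
  have e1 := measure_lt_one_eq_integral_div_gamma (volume : Measure (Fin m → ℝ)) g1 g2 g3 g4 g5
    (p := 2) (by norm_num)
  have e2 := measure_le_eq_lt (volume : Measure (Fin m → ℝ)) g1 g2 g3 g4 g5 1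
  rw [← e2] at e1
  have e3 : ∀ x, exp (-(g x) ^ (2 : ℝ)) = exp (-(nrm p (L x) ^ 2 / 2)) := by
    intro x
    congr 1
    rw [Real.rpow_two, hg]
    simp only [div_pow]
    rw [Real.sq_sqrt (by norm_num)]
  simp only [e3, Module.finrank_fintype_fun_eq_card, Fintype.card_fin] at e1
  rw [← e1]
  have e4 : {x | g x ≤ 1} = (√2) • {y | nrm p (L y) ≤ 1} := by
    ext x
    rw [Set.mem_smul_set_iff_inv_smul_mem₀ h2.ne']
    simp only [mem_setOf_eq, map_smul, hg]
    rw [nrm_smul hp0, abs_of_pos (inv_pos.mpr h2), div_eq_inv_mul]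
  rw [e4, Measure.addHaar_smul]
  simp only [Module.finrank_fintype_fun_eq_card, Fintype.card_fin]
  rw [← mul_assoc, ENNReal.inv_mul_cancel, one_mul]
  · simp
  · exact ENNReal.ofReal_ne_top

/-- the contracting projection in Auerbach position -/
theorem contractor_pos (m : ℕ) (hm : 0 < m) : ∃ p₀ : ℝ, 3 / 2 ≤ p₀ ∧ p₀ < 2 ∧ ∀ p, p₀ < p → p < 2 →
    ∀ (n : ℕ) (L : (Fin m → ℝ) →ₗ[ℝ] (Fin n → ℝ)), (∀ x, ‖x‖ ≤ nrm p (L x)) →
    (∀ x, nrm p (L x) ≤ m * ‖x‖) → (∀ k, nrm p (L (Pi.single k 1)) ≤ 1) →
    ∃ pr : (Fin n → ℝ) →ₗ[ℝ] (Fin m → ℝ), pr ∘ₗ L = LinearMap.id ∧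
      ∀ A : (Fin m → ℝ) →ₗ[ℝ] (Fin n → ℝ), pr ∘ₗ A = 0 →
        volume {y | nrm p ((L + A) y) ≤ 1} ≤ volume {y | nrm p (L y) ≤ 1} := by
  obtain ⟨δ₀, hδ₀, hmain⟩ := main_int m hm
  obtain ⟨C, hC, hstar⟩ := star m hm
  set η := min δ₀ (1 / 2) with hη
  have hη0 : 0 < η := lt_min hδ₀ (by norm_num)
  refine ⟨max (3 / 2) (2 - η / C), le_max_left _ _, max_lt (by norm_num) (by
    have : 0 < η / C := by positivity
    linarith), ?_⟩
  intro p hp hp2 n L h1 h2 h3
  have hp32 : 3 / 2 ≤ p := (le_max_left _ _).trans hp.le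
  have hp1 : 1 < p := by linarith
  have hp0 : 0 < p := by linarith
  have hδ : (2 - p) * C ≤ η := by
    have h4 : 2 - η / C < p := lt_of_le_of_lt (le_max_right _ _) hp
    have h5 : 2 - p < η / C := by linarith
    rw [lt_div_iff₀ hC] at h5
    exact h5.le
  have hw0 : ∀ x, 0 < wt p L x := fun x => exp_pos _
  -- the linear map `T`
  let τ : Fin n → Fin m → ℝ := fun i a => ∫ x, wt p L x * (jj p L x i * x a)
  let T : (Fin n → ℝ) →ₗ[ℝ] (Fin m → ℝ) :=
    { toFun := fun k a => ∑ i, k i * τ i a
      map_add' := by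
        intro k l
        ext a
        simp [add_mul, Finset.sum_add_distrib]
      map_smul' := by
        intro c k
        ext a
        simp [mul_assoc, Finset.mul_sum] }
  have hTdef : ∀ k a, T k a = ∑ i, k i * τ i a := fun k a => rfl
  have hint : ∀ i a, Integrable (fun x => wt p L x * (jj p L x i * x a)) := by
    intro i a
    refine (integrable_wt hp0 hm L h1 (f := fun x => jj p L x i * x a) (C := m)
      ((measurable_jj p hp0 L i).mul (by fun_prop)) ?_).1
    intro x
    rw [abs_mul]
    have h4 : |x a| ≤ ‖x‖ := by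
      have := norm_le_pi_norm x a
      rwa [Real.norm_eq_abs] at this
    have := (abs_jj_le hp1 hp2 L x i).trans (h2 x)
    calc |jj p L x i| * |x a| ≤ (m * ‖x‖) * ‖x‖ := by gcongr
      _ = _ := by ring
  have hT : ∀ k a, T k a = ∫ x, wt p L x * ((∑ i, jj p L x i * k i) * x a) := by
    intro k a
    have e1 : ∀ x, wt p L x * ((∑ i, jj p L x i * k i) * x a)
        = ∑ i, k i * (wt p L x * (jj p L x i * x a)) := by
      intro x
      rw [Finset.sum_mul, Finset.mul_sum]
      refine Finset.sum_congr rfl fun i _ => ?_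
      ring
    simp only [e1]
    rw [integral_finsetSum _ fun i _ => (hint i a).const_mul _, hTdef]
    refine Finset.sum_congr rfl fun i _ => ?_
    rw [integral_const_mul]
  have hstar' : ∀ k, T k = 0 → ∀ x, |∑ i, jj p L x i * k i| ≤ (2 - p) * C * ‖x‖ * nrm p k := by
    intro k hk
    refine hstar p n L hp32 hp2 h1 h2 h3 k ?_
    intro a
    rw [← hT, hk]
    rfl
  -- injectivity
  have hinj : Function.Injective (T ∘ₗ L) := by
    rw [injective_iff_map_eq_zero]
    intro y hy
    have h4 := hstar' (L y) hy y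
    rw [sum_jj_self hp1 hp2] at h4
    by_contra hne
    have hyn : 0 < ‖y‖ := norm_pos_iff.mpr hne
    have hN : 0 < nrm p (L y) := lt_of_lt_of_le hyn (h1 y)
    rw [abs_of_pos (by positivity)] at h4
    have h5 : (2 - p) * C ≤ 1 / 2 := hδ.trans (min_le_right _ _)
    have h6 : (2 - p) * C * ‖y‖ * nrm p (L y) ≤ 1 / 2 * nrm p (L y) * nrm p (L y) := by
      have := h1 y
      have : 0 ≤ (2 - p) * C := by
        have : 0 < 2 - p := by linarith
        positivity
      gcongr
    nlinarith
  let B₀ := LinearEquiv.ofInjectiveEndo (T ∘ₗ L) hinj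
  have hB₀ : ∀ y, B₀ y = T (L y) := fun y => rfl
  refine ⟨B₀.symm.toLinearMap ∘ₗ T, ?_, ?_⟩
  · refine LinearMap.ext fun y => ?_
    simp only [LinearMap.comp_apply, LinearEquiv.coe_coe, LinearMap.id_apply]
    rw [← hB₀, LinearEquiv.symm_apply_apply]
  · intro A hA
    have hTA : ∀ y, T (A y) = 0 := by
      intro y
      have h4 := LinearMap.congr_fun hA y
      simp only [LinearMap.comp_apply, LinearEquiv.coe_coe, LinearMap.zero_apply] at h4
      have h5 := congrArg B₀ h4
      rwa [LinearEquiv.apply_symm_apply, map_zero] at h5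
    set ρ : (Fin m → ℝ) → ℝ := fun x => nrm p (A x) with hρ
    set G : (Fin m → ℝ) → ℝ := fun x => ∑ i, jj p L x i * A x i with hG
    have hGm : Measurable G := by
      refine Finset.measurable_sum _ fun i _ => (measurable_jj p hp0 L i).mul ?_
      exact ((continuous_apply i).comp (continuous_L A)).measurable
    have hGb : ∀ x, |G x| ≤ δ₀ * ‖x‖ * ρ x := by
      intro x
      refine (hstar' (A x) (hTA x) x).trans ?_
      have := nrm_nonneg p (A x)
      have : (2 - p) * C ≤ δ₀ := hδ.trans (min_le_left _ _)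
      gcongr
    have hG0 : ∫ x, exp (-(nrm p (L x) ^ 2 / 2)) * G x = 0 := by
      have e1 : ∀ x, exp (-(nrm p (L x) ^ 2 / 2)) * G x
          = ∑ a, wt p L x * ((∑ i, jj p L x i * A (Pi.single a 1) i) * x a) := by
        intro x
        rw [← Finset.mul_sum]
        change wt p L x * G x = _
        congr 1
        simp only [hG]
        simp only [Finset.sum_mul]
        rw [Finset.sum_comm]
        refine Finset.sum_congr rfl fun i _ => ?_
        rw [L_apply A x i, Finset.mul_sum]
        refine Finset.sum_congr rfl fun a _ => ?_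
        ring
      simp only [e1]
      rw [integral_finsetSum]
      · refine Finset.sum_eq_zero fun a _ => ?_
        rw [← hT, hTA]
        rfl
      · intro a _
        have e2 : ∀ x, wt p L x * ((∑ i, jj p L x i * A (Pi.single a 1) i) * x a)
            = ∑ i, A (Pi.single a 1) i * (wt p L x * (jj p L x i * x a)) := by
          intro x
          rw [Finset.sum_mul, Finset.mul_sum]
          refine Finset.sum_congr rfl fun i _ => ?_
          ring
        simp only [e2]
        exact integrable_finsetSum _ fun i _ => (hint i a).const_mul _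
    obtain ⟨hI, hle⟩ := hmain (fun x => nrm p (L x)) ρ G
      ((continuous_nrm hp0).comp (continuous_L L)) h1 h2
      ((continuous_nrm hp0).comp (continuous_L A))
      (fun x y => by simp only [hρ, map_add]; exact nrm_add_le hp1.le _ _)
      (fun c x => by simp only [hρ, map_smul]; exact nrm_smul hp0 _ _) hGm hGb hG0
    have hpt : ∀ x, exp (-(nrm p ((L + A) x) ^ 2 / 2)) ≤
        exp (-(nrm p (L x) ^ 2 / 2)) * exp (-G x - ρ x ^ 2 / 12) := by
      intro x
      rw [← Real.exp_add]
      apply Real.exp_le_exp.mpr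
      have h4 := uc hp32 hp2 (L x) (A x)
      have h5 : nrm p (L x) ^ (2 - p) * ∑ i, sp p (L x i) * A x i = G x := by
        simp only [hG, jj, Finset.mul_sum, mul_assoc]
      rw [h5] at h4
      have h6 : L x + A x = (L + A) x := rfl
      rw [h6] at h4
      simp only [hρ]
      linarith
    have hint2 : ∫ x, exp (-(nrm p ((L + A) x) ^ 2 / 2)) ≤ ∫ x, exp (-(nrm p (L x) ^ 2 / 2)) := by
      refine le_trans ?_ hle
      refine integral_mono_of_nonneg (Filter.Eventually.of_forall fun x => (exp_pos _).le) hI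
        (Filter.Eventually.of_forall hpt)
    have hLinj : Function.Injective L := by
      rw [injective_iff_map_eq_zero]
      intro y hy
      have := h1 y
      rw [hy, nrm_zero hp0] at this
      exact norm_le_zero_iff.mp this
    have hLAinj : Function.Injective (L + A) := by
      rw [injective_iff_map_eq_zero]
      intro y hy
      have h4 : T ((L + A) y) = 0 := by rw [hy, map_zero]
      rw [LinearMap.add_apply, map_add, hTA, add_zero] at h4
      exact (injective_iff_map_eq_zero _).mp hinj y h4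
    rw [vol_eq hp1.le hm _ hLinj, vol_eq hp1.le hm _ hLAinj]
    gcongr

/-- the contracting projection -/
theorem contractor (m : ℕ) (hm : 0 < m) : ∃ p₀ : ℝ, 3 / 2 ≤ p₀ ∧ p₀ < 2 ∧ ∀ p, p₀ < p → p < 2 →
    ∀ (n : ℕ) (E : (Fin m → ℝ) →ₗ[ℝ] (Fin n → ℝ)), Function.Injective E →
    ∃ pr : (Fin n → ℝ) →ₗ[ℝ] (Fin m → ℝ), pr ∘ₗ E = LinearMap.id ∧
      ∀ E' : (Fin m → ℝ) →ₗ[ℝ] (Fin n → ℝ),
        ENNReal.ofReal |LinearMap.det (pr ∘ₗ E')| * volume {y | nrm p (E' y) ≤ 1}
          ≤ volume {y | nrm p (E y) ≤ 1} := by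
  obtain ⟨p₀, hp32, hp₀, hpos⟩ := contractor_pos m hm
  refine ⟨p₀, hp32, hp₀, ?_⟩
  intro p hp hp2 n E hE
  have hp1 : 1 < p := by linarith
  have hp0 : 0 < p := by linarith
  obtain ⟨g, hg1, hg2, hg3⟩ := auerbach (fun x => nrm p (E x))
    ((continuous_nrm hp0).comp (continuous_L E))
    (fun x y => by simp only [map_add]; exact nrm_add_le hp1.le _ _)
    (fun c x => by simp only [map_smul]; exact nrm_smul hp0 _ _)
    (fun x hx => (injective_iff_map_eq_zero E).mp hE x (nrm_eq_zero hp0 hx))
  obtain ⟨pr, hpr, hA⟩ := hpos p hp hp2 n (E ∘ₗ g.toLinearMap) hg1 hg2 hg3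
  refine ⟨g.toLinearMap ∘ₗ pr, ?_, ?_⟩
  · refine LinearMap.ext fun y => ?_
    have h1 := LinearMap.congr_fun hpr (g.symm y)
    simp only [LinearMap.comp_apply, LinearEquiv.coe_coe, LinearEquiv.apply_symm_apply,
      LinearMap.id_apply] at h1 ⊢
    rw [h1, LinearEquiv.apply_symm_apply]
  · intro E'
    set B : (Fin m → ℝ) →ₗ[ℝ] (Fin m → ℝ) := pr ∘ₗ E' with hB
    have hdet : LinearMap.det ((g.toLinearMap ∘ₗ pr) ∘ₗ E')
        = LinearMap.det g.toLinearMap * LinearMap.det B := by
      rw [LinearMap.comp_assoc, ← LinearMap.det_comp]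
    rcases eq_or_ne (LinearMap.det B) 0 with h0 | h0
    · rw [hdet, h0, mul_zero, abs_zero, ENNReal.ofReal_zero, zero_mul]
      exact zero_le
    · let Be := LinearEquiv.ofIsUnitDet (f := B) (v := Pi.basisFun ℝ (Fin m))
        (v' := Pi.basisFun ℝ (Fin m)) (by
          have : (LinearMap.toMatrix (Pi.basisFun ℝ (Fin m)) (Pi.basisFun ℝ (Fin m)) B).det
            = LinearMap.det B := by
            rw [LinearMap.det_toMatrix]
          rw [this]
          exact isUnit_iff_ne_zero.mpr h0)
      have hBe : ∀ y, Be y = B y := fun y => rfl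
      set L := E ∘ₗ g.toLinearMap with hL
      set A := E' ∘ₗ Be.symm.toLinearMap - L with hAdef
      have hprA : pr ∘ₗ A = 0 := by
        refine LinearMap.ext fun y => ?_
        have h1 := LinearMap.congr_fun hpr y
        simp only [LinearMap.comp_apply, LinearMap.id_apply] at h1
        simp only [hAdef, LinearMap.comp_apply, LinearMap.sub_apply, map_sub, h1,
          LinearEquiv.coe_coe, LinearMap.zero_apply]
        have h2 : pr (E' (Be.symm y)) = y := by
          change B (Be.symm y) = y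
          rw [← hBe, LinearEquiv.apply_symm_apply]
        rw [h2, sub_self]
      have hv := hA A hprA
      have e1 : {y | nrm p (E' y) ≤ 1} = B ⁻¹' {y | nrm p ((L + A) y) ≤ 1} := by
        ext y
        simp only [mem_setOf_eq, mem_preimage]
        have h2 : (L + A) (B y) = E' y := by
          simp only [hAdef, add_sub_cancel, LinearMap.comp_apply, LinearEquiv.coe_coe]
          rw [← hBe, LinearEquiv.symm_apply_apply]
        rw [h2]
      have e2 : {y | nrm p (E y) ≤ 1} = g.symm.toLinearMap ⁻¹' {y | nrm p (L y) ≤ 1} := by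
        ext y
        simp [hL]
      have hgdet : LinearMap.det g.symm.toLinearMap ≠ 0 := by
        have := LinearEquiv.isUnit_det' g.symm
        exact this.ne_zero
      rw [e1, e2, Measure.addHaar_preimage_linearMap _ h0,
        Measure.addHaar_preimage_linearMap _ hgdet, hdet]
      have hgg : LinearMap.det g.toLinearMap = (LinearMap.det g.symm.toLinearMap)⁻¹ := by
        have h2 := LinearEquiv.det_mul_det_symm g
        exact eq_inv_of_mul_eq_one_left h2
      rw [hgg, abs_mul, ENNReal.ofReal_mul (abs_nonneg _), mul_assoc, ← mul_assoc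
        (ENNReal.ofReal |LinearMap.det B|), ← ENNReal.ofReal_mul (abs_nonneg _), ← abs_mul,
        mul_inv_cancel₀ h0, abs_one, ENNReal.ofReal_one, one_mul]
      gcongr

end Pool.Agent.Helper590_Face
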