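import Pool.Agent.Helper590_Face.Defs

/-!
# Projections of polyhedral cycles cover
-/

set_option autoImplicit false

namespace Pool.Agent.Helper590_Face

open MeasureTheory Set Metric
open scoped ENNReal Topology

section Bump

variable {d : ℕ}

/-- one-dimensional bump with centre `c` and radius `r` -/
noncomputable def bmp (c r : ℝ) (hr : 0 < r) : ContDiffBump c :=
  ⟨r / 2, r, by positivity, by linarith⟩

/-- primitive of the bump -/
noncomputable def prim (c r : ℝ) (hr : 0 < r) (t : ℝ) : ℝ := ∫ s in c..t, bmp c r hr s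

theorem prim_hasDerivAt (c r : ℝ) (hr : 0 < r) (t : ℝ) :
    HasDerivAt (prim c r hr) (bmp c r hr t) t := by
  have hc : Continuous (bmp c r hr) := (bmp c r hr).continuous
  exact intervalIntegral.integral_hasDerivAt_right (hc.intervalIntegrable _ _)
    (hc.stronglyMeasurableAtFilter _ _) hc.continuousAt

theorem prim_contDiff (c r : ℝ) (hr : 0 < r) : ContDiff ℝ (⊤ : ℕ∞) (prim c r hr) := by
  rw [contDiff_infty_iff_deriv]
  constructor
  · exact fun t => (prim_hasDerivAt c r hr t).differentiableAt
  · have : deriv (prim c r hr) = bmp c r hr := by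
      ext t
      exact (prim_hasDerivAt c r hr t).deriv
    rw [this]
    exact (bmp c r hr).contDiff

/-- product bump -/
noncomputable def pb (c : Fin (d + 1) → ℝ) (r : ℝ) (hr : 0 < r) (y : Fin (d + 1) → ℝ) : ℝ :=
  ∏ b, bmp (c b) r hr (y b)

/-- primitive of the product bump in the first variable -/
noncomputable def pF (c : Fin (d + 1) → ℝ) (r : ℝ) (hr : 0 < r) (y : Fin (d + 1) → ℝ) : ℝ :=
  prim (c 0) r hr (y 0) * ∏ a : Fin d, bmp (c a.succ) r hr (y a.succ)

theorem pF_contDiff (c : Fin (d + 1) → ℝ) (r : ℝ) (hr : 0 < r) :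
    ContDiff ℝ (⊤ : ℕ∞) (pF c r hr) := by
  unfold pF
  refine ContDiff.mul ?_ ?_
  · exact (prim_contDiff _ _ _).comp (contDiff_apply ℝ ℝ 0)
  · refine contDiff_prod fun a _ => ?_
    exact (bmp (c a.succ) r hr).contDiff.comp (contDiff_apply ℝ ℝ a.succ)

theorem fderiv_pF (c : Fin (d + 1) → ℝ) (r : ℝ) (hr : 0 < r) (y : Fin (d + 1) → ℝ) :
    fderiv ℝ (pF c r hr) y (Pi.single 0 1) = pb c r hr y := by
  have hd : DifferentiableAt ℝ (pF c r hr) y :=
    (pF_contDiff c r hr).differentiable (by simp) y
  rw [← hd.lineDeriv_eq_fderiv, lineDeriv]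
  have h1 : (fun t : ℝ => pF c r hr (y + t • Pi.single 0 1))
      = fun t => prim (c 0) r hr (y 0 + t) * ∏ a : Fin d, bmp (c a.succ) r hr (y a.succ) := by
    ext t
    simp [pF]
  rw [h1]
  have h2 : HasDerivAt (fun t : ℝ => prim (c 0) r hr (y 0 + t)) (bmp (c 0) r hr (y 0)) 0 := by
    have h3 := prim_hasDerivAt (c 0) r hr (y 0 + 0)
    have h4 : HasDerivAt (fun t : ℝ => y 0 + t) 1 0 := by
      simpa using (hasDerivAt_id (0 : ℝ)).const_add (y 0)
    have h5 : HasDerivAt (fun t : ℝ => prim (c 0) r hr (y 0 + t))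
        (bmp (c 0) r hr (y 0 + 0) * 1) 0 := HasDerivAt.comp (0 : ℝ) h3 h4
    rwa [add_zero, mul_one] at h5
  rw [(h2.mul_const _).deriv, pb, Fin.prod_univ_succ]

theorem pb_nonneg (c : Fin (d + 1) → ℝ) (r : ℝ) (hr : 0 < r) (y : Fin (d + 1) → ℝ) :
    0 ≤ pb c r hr y := Finset.prod_nonneg fun b _ => (bmp (c b) r hr).nonneg

theorem pb_continuous (c : Fin (d + 1) → ℝ) (r : ℝ) (hr : 0 < r) : Continuous (pb c r hr) := by
  unfold pb
  exact continuous_finsetProd _ fun b _ => (bmp (c b) r hr).continuous.comp (continuous_apply b)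

theorem pb_eq_zero (c : Fin (d + 1) → ℝ) (r : ℝ) (hr : 0 < r) (y : Fin (d + 1) → ℝ)
    (hy : y ∉ ball c r) : pb c r hr y = 0 := by
  rw [mem_ball, dist_pi_lt_iff hr] at hy
  push Not at hy
  obtain ⟨b, hb⟩ := hy
  refine Finset.prod_eq_zero (Finset.mem_univ b) ?_
  exact (bmp (c b) r hr).zero_of_le_dist hb

theorem pb_pos (c : Fin (d + 1) → ℝ) (r : ℝ) (hr : 0 < r) (y : Fin (d + 1) → ℝ)
    (hy : y ∈ ball c r) : 0 < pb c r hr y := by
  rw [mem_ball, dist_pi_lt_iff hr] at hy
  exact Finset.prod_pos fun b _ => (bmp (c b) r hr).pos_of_mem_ball (hy b)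

end Bump

variable {p : ℝ≥0∞} [Fact (1 ≤ p)] {n d : ℕ}

/-- the constant form `dπ_1 ∧ ⋯ ∧ dπ_d` -/
noncomputable def lamForm (pr : Lp p n →ₗ[ℝ] (Fin (d + 1) → ℝ)) : (Lp p n) [⋀^Fin d]→L[ℝ] ℝ :=
  let q : Lp p n →ₗ[ℝ] (Fin d → ℝ) :=
    { toFun := fun w a => pr w a.succ
      map_add' := by intro v w; ext a; simp
      map_smul' := by intro v w; ext a; simp }
  { (Matrix.detRowAlternating (R := ℝ) (n := Fin d)).compLinearMap q with
    cont := by
      have hq : Continuous q := LinearMap.continuous_of_finiteDimensional q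
      change Continuous fun v : Fin d → Lp p n => Matrix.det (Matrix.of fun l => q (v l))
      refine Continuous.matrix_det ?_
      refine continuous_matrix fun i j => ?_
      exact (continuous_apply j).comp (hq.comp (continuous_apply i)) }

theorem lamForm_apply (pr : Lp p n →ₗ[ℝ] (Fin (d + 1) → ℝ)) (v : Fin d → Lp p n) :
    lamForm pr v = Matrix.det (Matrix.of fun (l a : Fin d) => pr (v l) a.succ) := rfl

theorem extDeriv_test (pr : Lp p n →ₗ[ℝ] (Fin (d + 1) → ℝ)) (χ : Lp p n → ℝ)
    (c : Fin (d + 1) → ℝ) (r : ℝ) (hr : 0 < r) (x : Lp p n) (hχ : ∀ᶠ z in 𝓝 x, χ z = 1)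
    (v : Fin (d + 1) → Lp p n) :
    extDeriv (fun z => (χ z * pF c r hr (pr z)) • lamForm pr) x v
      = pb c r hr (pr x) * Matrix.det (Matrix.of fun i a => pr (v i) a) := by
  have hprc : Continuous pr := LinearMap.continuous_of_finiteDimensional pr
  let prL : Lp p n →L[ℝ] (Fin (d + 1) → ℝ) := ⟨pr, hprc⟩
  have hev : (fun z => (χ z * pF c r hr (pr z)) • lamForm pr)
      =ᶠ[𝓝 x] fun z => (pF c r hr (pr z)) • lamForm pr := by
    filter_upwards [hχ] with z hz
    rw [hz, one_mul]
  have hFd : ∀ z, HasFDerivAt (fun z => pF c r hr (pr z))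
      ((fderiv ℝ (pF c r hr) (pr z)).comp prL) z := by
    intro z
    have h1 : HasFDerivAt (pF c r hr) (fderiv ℝ (pF c r hr) (pr z)) (pr z) :=
      ((pF_contDiff c r hr).differentiable (by simp) (pr z)).hasFDerivAt
    have h2 : HasFDerivAt (fun z => pr z) prL z := prL.hasFDerivAt
    exact h1.comp z h2
  have hdiff : DifferentiableAt ℝ (fun z => (pF c r hr (pr z)) • lamForm pr) x :=
    (hFd x).differentiableAt.smul_const _
  have e0 : extDeriv (fun z => (χ z * pF c r hr (pr z)) • lamForm pr) x
      = extDeriv (fun z => (pF c r hr (pr z)) • lamForm pr) x := by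
    unfold extDeriv
    rw [hev.fderiv_eq]
  rw [e0, extDeriv_apply hdiff]
  have e1 : ∀ i : Fin (d + 1), fderiv ℝ (fun z => ((pF c r hr (pr z)) • lamForm pr)
      (i.removeNth v)) x (v i) = fderiv ℝ (pF c r hr) (pr x) (pr (v i)) *
        lamForm pr (i.removeNth v) := by
    intro i
    have h1 : (fun z => ((pF c r hr (pr z)) • lamForm pr) (i.removeNth v))
        = fun z => pF c r hr (pr z) * lamForm pr (i.removeNth v) := by
      ext z
      simp
    rw [h1, ((hFd x).mul_const _).fderiv]
    simp only [smul_apply, ContinuousLinearMap.comp_apply, smul_eq_mul]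
    rw [mul_comm]
    rfl
  simp only [e1]
  -- expand in coordinates
  have e2 : ∀ i : Fin (d + 1), fderiv ℝ (pF c r hr) (pr x) (pr (v i))
      = ∑ b, pr (v i) b * fderiv ℝ (pF c r hr) (pr x) (Pi.single b 1) := by
    intro i
    have h1 : pr (v i) = ∑ b, pr (v i) b • (Pi.single b 1 : Fin (d + 1) → ℝ) := by
      ext j
      simp [Pi.single_apply]
    conv_lhs => rw [h1]
    rw [map_sum]
    simp
  simp only [e2, Finset.sum_mul, zsmul_eq_mul, Finset.mul_sum]
  rw [Finset.sum_comm]
  -- the determinants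
  have e3 : ∀ b : Fin (d + 1), ∑ i : Fin (d + 1), (((-1 : ℤ) ^ (i : ℕ) : ℤ) : ℝ) *
      (pr (v i) b * fderiv ℝ (pF c r hr) (pr x) (Pi.single b 1) * lamForm pr (i.removeNth v))
      = fderiv ℝ (pF c r hr) (pr x) (Pi.single b 1) *
        Matrix.det (Matrix.of fun (i : Fin (d + 1)) =>
          (Fin.cons (pr (v i) b) (fun a => pr (v i) a.succ) : Fin (d + 1) → ℝ)) := by
    intro b
    rw [Matrix.det_succ_column_zero, Finset.mul_sum]
    refine Finset.sum_congr rfl fun i _ => ?_
    have h1 : lamForm pr (i.removeNth v) = ((Matrix.of fun (i : Fin (d + 1)) =>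
          (Fin.cons (pr (v i) b) (fun a => pr (v i) a.succ) : Fin (d + 1) → ℝ)).submatrix
            i.succAbove Fin.succ).det := by
      rw [lamForm_apply]
      congr 1
    rw [h1]
    simp only [Matrix.of_apply, Fin.cons_zero]
    push_cast
    ring
  simp only [e3]
  rw [Fin.sum_univ_succ]
  have e4 : ∀ a : Fin d, Matrix.det (Matrix.of fun (i : Fin (d + 1)) =>
      (Fin.cons (pr (v i) a.succ) (fun a => pr (v i) a.succ) : Fin (d + 1) → ℝ)) = 0 := by
    intro a
    refine Matrix.det_zero_of_column_eq (i := 0) (j := a.succ) (Fin.succ_ne_zero a).symm ?_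
    intro k
    simp
  simp only [e4, mul_zero, Finset.sum_const_zero, add_zero]
  rw [fderiv_pF]
  congr 2
  ext i a
  refine Fin.cases ?_ (fun a => ?_) a <;> simp

/-- the linear part of the parametrization of a face -/
noncomputable def Face.lin {p : ℝ≥0∞} {n d : ℕ} (F : Face p n d) :
    (Fin (d + 1) → ℝ) →ₗ[ℝ] Lp p n :=
  { toFun := fun t => ∑ i, t i • F.frame i
    map_add' := by intro s t; simp [add_smul, Finset.sum_add_distrib]
    map_smul' := by intro s t; simp [mul_smul, Finset.smul_sum] }

theorem Face.lin_apply {p : ℝ≥0∞} {n d : ℕ} (F : Face p n d) (t : Fin (d + 1) → ℝ) :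
    F.lin t = ∑ i, t i • F.frame i := rfl

theorem Face.par_eq {p : ℝ≥0∞} {n d : ℕ} (F : Face p n d) (t : Fin (d + 1) → ℝ) :
    F.par t = F.base + F.lin t := rfl

theorem Face.lin_injective {p : ℝ≥0∞} {n d : ℕ} (F : Face p n d) : Function.Injective F.lin := by
  rw [injective_iff_map_eq_zero]
  intro t ht
  have h := Fintype.linearIndependent_iff.mp F.indep t ht
  ext i
  exact h i

theorem Face.dom_compact {p : ℝ≥0∞} {n d : ℕ} (F : Face p n d) : IsCompact F.dom :=
  F.verts.finite_toSet.isCompact_convexHull ℝ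

theorem Face.det_eq {p : ℝ≥0∞} {n d : ℕ} (F : Face p n d)
    (pr : Lp p n →ₗ[ℝ] (Fin (d + 1) → ℝ)) :
    Matrix.det (Matrix.of fun i a => pr (F.frame i) a) = LinearMap.det (pr ∘ₗ F.lin) := by
  rw [← LinearMap.det_toMatrix', ← Matrix.det_transpose]
  congr 1
  ext a i
  rw [LinearMap.toMatrix'_apply]
  simp [Face.lin_apply, Pi.single_apply]

/-- the test identity for a cycle -/
theorem cycle_test (P : Chain p n d) (hP : P.IsCycle) (pr : Lp p n →ₗ[ℝ] (Fin (d + 1) → ℝ))
    (c : Fin (d + 1) → ℝ) (r : ℝ) (hr : 0 < r) :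
    ∑ j, (P.mult j : ℝ) * (LinearMap.det (pr ∘ₗ (P.face j).lin) *
      ∫ t in (P.face j).dom, pb c r hr (pr ((P.face j).par t))) = 0 := by
  have hparc : ∀ j, Continuous (P.face j).par := by
    intro j
    unfold Face.par
    fun_prop
  have hprc : Continuous pr := LinearMap.continuous_of_finiteDimensional pr
  -- a large ball containing all faces
  have hK : IsCompact (⋃ j, (P.face j).carrier) := by
    refine isCompact_iUnion fun j => ?_
    exact (P.face j).dom_compact.image (hparc j)
  obtain ⟨R, hR0, hR⟩ : ∃ R : ℝ, 0 < R ∧ (⋃ j, (P.face j).carrier) ⊆ ball (0 : Lp p n) R := by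
    obtain ⟨R, hR⟩ := hK.isBounded.subset_ball (0 : Lp p n)
    exact ⟨max R 1, by positivity, hR.trans (ball_subset_ball (le_max_left _ _))⟩
  let χ : ContDiffBump (0 : Lp p n) := ⟨R, R + 1, hR0, by linarith⟩
  have hχ1 : ∀ x ∈ ball (0 : Lp p n) R, ∀ᶠ z in 𝓝 x, χ z = 1 := by
    intro x hx
    filter_upwards [isOpen_ball.mem_nhds hx] with z hz
    exact χ.one_of_mem_closedBall (ball_subset_closedBall hz)
  have hω := hP (fun z => (χ z * pF c r hr (pr z)) • lamForm pr) (by
    refine ContDiff.smul (ContDiff.mul χ.contDiff ?_) contDiff_const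
    have h1 : ContDiff ℝ (⊤ : ℕ∞) (fun z => pr z) := by
      let prL : Lp p n →L[ℝ] (Fin (d + 1) → ℝ) := ⟨pr, hprc⟩
      exact prL.contDiff
    exact (pF_contDiff c r hr).comp h1) (by
    have h1 : HasCompactSupport (fun z => χ z) := χ.hasCompactSupport
    have h2 : HasCompactSupport (fun z => χ z * pF c r hr (pr z)) := h1.mul_right
    exact h2.smul_right)
  rw [← hω]
  refine Finset.sum_congr rfl fun j _ => ?_
  congr 1
  rw [← integral_const_mul]
  refine setIntegral_congr_fun (P.face j).dom_compact.measurableSet fun t ht => ?_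
  have hx : (P.face j).par t ∈ ball (0 : Lp p n) R :=
    hR (mem_iUnion.mpr ⟨j, t, ht, rfl⟩)
  simp only
  rw [extDeriv_test pr χ c r hr _ (hχ1 _ hx), Face.det_eq]
  ring

/-- the projections of the other faces cover the distinguished face -/
theorem cover (P : Chain p n d) (hP : P.IsCycle) (i₀ : Fin P.k)
    (pr : Lp p n →ₗ[ℝ] (Fin (d + 1) → ℝ)) (hpr : pr ∘ₗ (P.face i₀).lin = LinearMap.id) :
    volume (P.face i₀).dom ≤ ∑ j ∈ Finset.univ.erase i₀,
      ENNReal.ofReal |LinearMap.det (pr ∘ₗ (P.face j).lin)| * volume (P.face j).dom := by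
  classical
  have hprc : Continuous pr := LinearMap.continuous_of_finiteDimensional pr
  set F := P.face i₀ with hF
  have hparc : ∀ j, Continuous (P.face j).par := by
    intro j
    unfold Face.par
    fun_prop
  have hprpar : ∀ t, pr (F.par t) = pr F.base + t := by
    intro t
    rw [Face.par_eq, map_add]
    congr 1
    exact LinearMap.congr_fun hpr t
  set K : Set (Fin (d + 1) → ℝ) :=
    ⋃ j ∈ Finset.univ.erase i₀, (fun t => pr ((P.face j).par t)) '' (P.face j).dom with hKdef
  have hKc : IsCompact K := by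
    refine (Finset.univ.erase i₀).isCompact_biUnion fun j _ => ?_
    exact (P.face j).dom_compact.image (hprc.comp (hparc j))
  have hsub : ∀ t ∈ interior F.dom, pr F.base + t ∈ K := by
    intro t₀ ht₀
    by_contra hcon
    have hopen : IsOpen {t : Fin (d + 1) → ℝ | pr F.base + t ∈ Kᶜ} :=
      hKc.isClosed.isOpen_compl.preimage (by fun_prop)
    have hopen2 : IsOpen (interior F.dom ∩ {t : Fin (d + 1) → ℝ | pr F.base + t ∈ Kᶜ}) :=
      isOpen_interior.inter hopen
    obtain ⟨r, hr, hball⟩ := Metric.isOpen_iff.mp hopen2 t₀ ⟨ht₀, hcon⟩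
    have htest := cycle_test P hP pr (pr F.base + t₀) r hr
    have hz : ∀ j ∈ Finset.univ.erase i₀, ∫ t in (P.face j).dom,
        pb (pr F.base + t₀) r hr (pr ((P.face j).par t)) = 0 := by
      intro j hj
      refine setIntegral_eq_zero_of_forall_eq_zero fun t ht => ?_
      refine pb_eq_zero _ _ _ _ fun hmem => ?_
      have h1 : pr ((P.face j).par t) - pr F.base ∈ ball t₀ r := by
        rw [mem_ball, dist_eq_norm] at hmem ⊢
        have : pr ((P.face j).par t) - pr F.base - t₀
          = pr ((P.face j).par t) - (pr F.base + t₀) := by abel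
        rwa [this]
      have h2 := (hball h1).2
      simp only [mem_ofPred_eq, add_sub_cancel] at h2
      apply h2
      rw [hKdef]
      exact mem_biUnion hj ⟨t, ht, rfl⟩
    rw [← Finset.add_sum_erase _ _ (Finset.mem_univ i₀)] at htest
    rw [Finset.sum_eq_zero (s := Finset.univ.erase i₀) (fun j hj => by
      rw [hz j hj, mul_zero, mul_zero]), add_zero] at htest
    rw [← hF, hpr, LinearMap.det_id, one_mul] at htest
    have h3 : (P.mult i₀ : ℝ) ≠ 0 := by exact_mod_cast P.mult_ne_zero i₀
    have h4 := (mul_eq_zero.mp htest).resolve_left h3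
    have hcont : Continuous (fun t => pb (pr F.base + t₀) r hr (pr (F.par t))) :=
      (pb_continuous _ _ _).comp (hprc.comp (hparc i₀))
    have hpos : 0 < ∫ t in F.dom, pb (pr F.base + t₀) r hr (pr (F.par t)) := by
      rw [setIntegral_pos_iff_support_of_nonneg_ae]
      · have h5 : ball t₀ r ⊆ (Function.support fun t =>
            pb (pr F.base + t₀) r hr (pr (F.par t))) ∩ F.dom := by
          intro t ht
          refine ⟨?_, interior_subset (hball ht).1⟩
          rw [Function.mem_support, hprpar]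
          refine (pb_pos _ _ _ _ ?_).ne'
          rw [mem_ball, dist_eq_norm] at ht ⊢
          have : pr F.base + t - (pr F.base + t₀) = t - t₀ := by abel
          rwa [this]
        exact (measure_ball_pos volume t₀ hr).trans_le (measure_mono h5)
      · exact Filter.Eventually.of_forall fun t => pb_nonneg _ _ _ _
      · exact hcont.continuousOn.integrableOn_compact F.dom_compact
    exact hpos.ne' h4
  have hconv : Convex ℝ F.dom := convex_convexHull ℝ _
  have hfr : volume F.dom = volume (interior F.dom) := by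
    have h1 : volume (frontier F.dom) = 0 := hconv.addHaar_frontier volume
    refine le_antisymm ?_ (measure_mono interior_subset)
    calc volume F.dom ≤ volume (interior F.dom ∪ frontier F.dom) := by
          refine measure_mono fun t ht => ?_
          by_cases h : t ∈ interior F.dom
          · exact Or.inl h
          · exact Or.inr ⟨subset_closure ht, h⟩
      _ ≤ volume (interior F.dom) + volume (frontier F.dom) := measure_union_le _ _
      _ = volume (interior F.dom) := by rw [h1, add_zero]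
  rw [hfr]
  have hvol : volume (interior F.dom) ≤ volume K := by
    have h1 : (fun t => pr F.base + t) '' interior F.dom ⊆ K := by
      rintro _ ⟨t, ht, rfl⟩
      exact hsub t ht
    have h2 : volume ((fun t => pr F.base + t) '' interior F.dom) = volume (interior F.dom) := by
      rw [image_add_left]
      exact measure_preimage_add volume _ _
    rw [← h2]
    exact measure_mono h1
  refine hvol.trans ((measure_biUnion_finset_le _ _).trans (Finset.sum_le_sum fun j _ => ?_))
  have e1 : (fun t => pr ((P.face j).par t)) '' (P.face j).dom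
      = (fun t => pr (P.face j).base + t) '' ((pr ∘ₗ (P.face j).lin) '' (P.face j).dom) := by
    rw [image_image]
    refine image_congr fun t _ => ?_
    rw [Face.par_eq, map_add]
    rfl
  rw [e1, image_add_left, measure_preimage_add, Measure.addHaar_image_linearMap]

end Pool.Agent.Helper590_Face
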