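import Mathlib

/-!
# Polyhedral chains and cycles in `ℓ^p_n`

The dimension of the chains is `d + 1`.
-/

set_option autoImplicit false

namespace Pool.Agent.Helper590_Face

open MeasureTheory Set
open scoped ENNReal

/-- `ℓ^p_n`: `ℝ^n` with the `p`-norm. -/
abbrev Lp (p : ℝ≥0∞) (n : ℕ) : Type := PiLp p (fun _ : Fin n => ℝ)

/-- An oriented compact convex polytope of dimension `d + 1` lying in an affine
`(d + 1)`-plane of `ℝ^n`: the image of a polytope of `ℝ^(d+1)` (the convex hull of finitely many
points, with nonempty interior) under the affine map `t ↦ base + ∑ t_i frame_i`. The orientation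
is the one of the linearly independent system `frame`. -/
structure Face (p : ℝ≥0∞) (n d : ℕ) where
  /-- a point of the affine plane -/
  base : Lp p n
  /-- a positively oriented basis of the direction of the affine plane -/
  frame : Fin (d + 1) → Lp p n
  /-- the vertices of the polytope, in the coordinates given by `base` and `frame` -/
  verts : Finset (Fin (d + 1) → ℝ)
  indep : LinearIndependent ℝ frame
  full : (interior (convexHull ℝ (verts : Set (Fin (d + 1) → ℝ)))).Nonempty

namespace Face

variable {p : ℝ≥0∞} {n d : ℕ}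

/-- the domain of the parametrization of a face -/
def dom (F : Face p n d) : Set (Fin (d + 1) → ℝ) := convexHull ℝ (F.verts : Set (Fin (d + 1) → ℝ))

/-- the affine parametrization of a face -/
noncomputable def par (F : Face p n d) (t : Fin (d + 1) → ℝ) : Lp p n :=
  F.base + ∑ i, t i • F.frame i

/-- the polytope itself, a subset of `ℝ^n` -/
def carrier (F : Face p n d) : Set (Lp p n) := F.par '' F.dom

end Face

/-- A polyhedral `(d + 1)`-chain `∑ θ_j ⟦F_j⟧` with faces `F_j`, nonzero integer multiplicities
`θ_j` and pairwise disjoint relative interiors. -/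
structure Chain (p : ℝ≥0∞) (n d : ℕ) where
  /-- the number of faces -/
  k : ℕ
  /-- the faces -/
  face : Fin k → Face p n d
  /-- the multiplicities -/
  mult : Fin k → ℤ
  mult_ne_zero : ∀ j, mult j ≠ 0
  disj : Pairwise fun i j => Disjoint ((face i).par '' interior (face i).dom)
    ((face j).par '' interior (face j).dom)

/-- `∂P = 0`, by Stokes' theorem: `∑ θ_j ∫_{F_j} dω = 0` for every smooth compactly supported
`d`-form `ω` on `ℝ^n`. -/
def Chain.IsCycle {p : ℝ≥0∞} [Fact (1 ≤ p)] {n d : ℕ} (P : Chain p n d) : Prop :=
  ∀ ω : Lp p n → (Lp p n) [⋀^Fin d]→L[ℝ] ℝ, ContDiff ℝ (⊤ : ℕ∞) ω → HasCompactSupport ω →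
    ∑ j, (P.mult j : ℝ) * ∫ t in (P.face j).dom, extDeriv ω ((P.face j).par t) (P.face j).frame = 0

end Pool.Agent.Helper590_Face
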