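import Mathlib
import Pool.Agent.Helper734.IB.PL

/-!
# The Hausdorff measure of the unit ball of a finite dimensional normed space

`μH[m]` of the closed unit ball of any `m`-dimensional real normed space is `2 ^ m`
(isodiametric inequality and Besicovitch covering).
-/

set_option autoImplicit false

namespace Pool.Agent.Helper590_Face

open MeasureTheory Set Filter Topology Metric Module
open scoped ENNReal NNReal

section Iso

variable {E : Type*} [NormedAddCommGroup E] [NormedSpace ℝ E] [FiniteDimensional ℝ E]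
  [MeasurableSpace E] [BorelSpace E]

/-- isodiametric inequality -/
theorem isodiam (ν : Measure E) [ν.IsAddHaarMeasure] (K : Set E) (hK : IsCompact K) (d : ℝ)
    (hd : 0 ≤ d) (hdiam : ∀ x ∈ K, ∀ y ∈ K, dist x y ≤ d) :
    ν K ≤ ENNReal.ofReal ((d / 2) ^ finrank ℝ E) * ν (closedBall 0 1) := by
  classical
  let n := finrank ℝ E
  let e : E ≃L[ℝ] (Fin n → ℝ) := ContinuousLinearEquiv.ofFinrankEq (by simp [n])
  have hem : Measurable e := e.continuous.measurable
  have hesm : Measurable e.symm := e.symm.continuous.measurable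
  have : (Measure.map e ν).IsAddHaarMeasure := e.isAddHaarMeasure_map ν
  have hc' := Measure.isAddLeftInvariant_eq_smul (Measure.map e ν) (volume : Measure (Fin n → ℝ))
  obtain ⟨c, hc⟩ : ∃ c : ℝ≥0∞, Measure.map e ν = c • volume := ⟨_, hc'⟩
  have key : ∀ A : Set E, MeasurableSet A → ν A = c * volume (e.symm ⁻¹' A) := by
    intro A hA
    have h1 : (Measure.map e ν) (e.symm ⁻¹' A) = ν A := by
      rw [Measure.map_apply hem (hesm hA)]
      congr 1
      ext x
      simp
    rw [← h1, hc]
    simp
  have hKm : MeasurableSet K := hK.measurableSet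
  have hBm : MeasurableSet (closedBall (0 : E) (d / 2)) := measurableSet_closedBall
  have hf : Measurable (indicator (e.symm ⁻¹' K) (fun _ => (1 : ℝ≥0∞))) :=
    measurable_const.indicator (hesm hKm)
  have hh : Measurable (indicator (e.symm ⁻¹' (closedBall (0 : E) (d / 2)))
      (fun _ => (1 : ℝ≥0∞))) := measurable_const.indicator (hesm hBm)
  have hgm : MeasurableSet {t : Fin n → ℝ | -t ∈ e.symm ⁻¹' K} :=
    measurable_neg (hesm hKm)
  have hg : Measurable (indicator {t : Fin n → ℝ | -t ∈ e.symm ⁻¹' K} (fun _ => (1 : ℝ≥0∞))) :=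
    measurable_const.indicator hgm
  have main := Pool.Agent.Helper734.IB.pln n _ _ _ hf hg hh (by
    intro s t
    by_cases hs : s ∈ e.symm ⁻¹' K
    · by_cases ht : t ∈ {t : Fin n → ℝ | -t ∈ e.symm ⁻¹' K}
      · have h3 : (fun i => (s i + t i) / 2) ∈ e.symm ⁻¹' (closedBall (0 : E) (d / 2)) := by
          have h4 : (fun i => (s i + t i) / 2) = (1 / 2 : ℝ) • (s - (-t)) := by
            ext i
            simp
            ring
          rw [mem_preimage, h4, map_smul, map_sub, mem_closedBall, dist_zero_right, norm_smul]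
          have h5 := hdiam _ hs _ ht
          rw [dist_eq_norm] at h5
          rw [Real.norm_of_nonneg (by norm_num)]
          linarith
        rw [indicator_of_mem hs, indicator_of_mem ht, indicator_of_mem h3]
        simp
      · rw [indicator_of_notMem ht]
        simp
    · rw [indicator_of_notMem hs]
      simp)
  have e1 : volume {t : Fin n → ℝ | -t ∈ e.symm ⁻¹' K} = volume (e.symm ⁻¹' K) := by
    have := Measure.measure_preimage_neg (volume : Measure (Fin n → ℝ)) (e.symm ⁻¹' K)
    exact this
  rw [lintegral_indicator (hesm hKm), lintegral_indicator hgm, lintegral_indicator (hesm hBm)]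
    at main
  simp only [lintegral_const, one_mul, Measure.restrict_apply MeasurableSet.univ, univ_inter]
    at main
  rw [e1, ← sq] at main
  have h2 : volume (e.symm ⁻¹' K) ≤ volume (e.symm ⁻¹' (closedBall (0 : E) (d / 2))) :=
    (ENNReal.pow_right_strictMono (n := 2) (by norm_num)).le_iff_le.mp main
  calc ν K = c * volume (e.symm ⁻¹' K) := key K hKm
    _ ≤ c * volume (e.symm ⁻¹' (closedBall (0 : E) (d / 2))) := by gcongr
    _ = ν (closedBall (0 : E) (d / 2)) := (key _ hBm).symm
    _ = _ := Measure.addHaar_closedBall' ν 0 (by positivity)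

theorem isodiam_set (ν : Measure E) [ν.IsAddHaarMeasure] (s : Set E) (hs : ediam s ≤ 1) :
    ν s ≤ (ediam s / 2) ^ ((finrank ℝ E : ℕ) : ℝ) * ν (closedBall 0 1) := by
  rcases s.eq_empty_or_nonempty with rfl | hne
  · simp
  have hfin : ediam s ≠ ∞ := ne_top_of_le_ne_top ENNReal.one_ne_top hs
  have hb : Bornology.IsBounded s := isBounded_iff_ediam_ne_top.mpr hfin
  have hK : IsCompact (closure s) := hb.isCompact_closure
  have h1 := isodiam ν (closure s) hK (ediam s).toReal ENNReal.toReal_nonneg (by
    intro x hx y hy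
    have h2 := edist_le_ediam_of_mem hx hy
    rw [ediam_closure] at h2
    rw [dist_edist]
    exact ENNReal.toReal_mono hfin h2)
  refine (measure_mono subset_closure).trans (h1.trans ?_)
  gcongr
  rw [ENNReal.ofReal_pow (by positivity), ENNReal.rpow_natCast]
  gcongr
  rw [ENNReal.ofReal_div_of_pos (by norm_num), ENNReal.ofReal_toReal hfin]
  simp

/-- lower bound: `2 ^ m ≤ μH[m] (closedBall 0 1)` -/
theorem le_hausdorff_ball :
    (2 : ℝ≥0∞) ^ (finrank ℝ E) ≤ μH[(finrank ℝ E : ℕ)] (closedBall (0 : E) 1) := by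
  set m := finrank ℝ E with hmdef
  set ν : Measure E := μH[(m : ℕ)] with hν
  have hν' : ν.IsAddHaarMeasure := isAddHaarMeasure_hausdorffMeasure
  have hpos : ν (closedBall 0 1) ≠ 0 := (measure_closedBall_pos ν 0 one_pos).ne'
  have hfin : ν (closedBall 0 1) ≠ ∞ := measure_closedBall_lt_top.ne
  set c : ℝ≥0∞ := 2 ^ m / ν (closedBall 0 1) with hc
  have key : c • ν ≤ μH[(m : ℕ)] := by
    refine Measure.le_hausdorffMeasure _ _ 1 one_pos ?_
    intro s hs
    have h1 := isodiam_set ν s hs
    rw [Measure.smul_apply, smul_eq_mul]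
    calc c * ν s ≤ c * ((ediam s / 2) ^ ((m : ℕ) : ℝ) * ν (closedBall 0 1)) := by gcongr
      _ = (c * ν (closedBall 0 1)) * (ediam s / 2) ^ ((m : ℕ) : ℝ) := by ring
      _ = 2 ^ m * (ediam s / 2) ^ m := by
          rw [hc, ENNReal.div_mul_cancel hpos hfin, ENNReal.rpow_natCast]
      _ = ediam s ^ ((m : ℕ) : ℝ) := by
          rw [← mul_pow, ENNReal.rpow_natCast, ENNReal.mul_div_cancel (by norm_num) (by norm_num)]
      _ ≤ _ := le_rfl
  have h2 := key (closedBall 0 1)
  rw [Measure.smul_apply, smul_eq_mul, hc, ENNReal.div_mul_cancel hpos hfin] at h2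
  exact h2

/-- upper bound: `μH[m] (closedBall 0 1) ≤ 2 ^ m` -/
theorem hausdorff_ball_le :
    μH[(finrank ℝ E : ℕ)] (closedBall (0 : E) 1) ≤ (2 : ℝ≥0∞) ^ (finrank ℝ E) := by
  set m := finrank ℝ E with hmdef
  set ν : Measure E := μH[(m : ℕ)] with hν
  have hν' : ν.IsAddHaarMeasure := isAddHaarMeasure_hausdorffMeasure
  have hposb : ν (ball 0 1) ≠ 0 := (measure_ball_pos ν 0 one_pos).ne'
  have hfinb : ν (ball 0 1) ≠ ∞ := measure_ball_lt_top.ne
  have hbc : ν (closedBall (0 : E) 1) = ν (ball (0 : E) 1) := by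
    exact Measure.addHaar_unitClosedBall_eq_addHaar_unitBall ν
  rw [hbc]
  -- coverings
  have cov : ∀ k : ℕ, ∃ (t : Set E) (r : E → ℝ), t.Countable ∧ t ⊆ ball (0 : E) 1 ∧
      (∀ x ∈ t, r x ∈ {r : ℝ | closedBall x r ⊆ ball (0 : E) 1} ∩ Ioo 0 (1 / ((k : ℝ) + 1))) ∧
      ν (ball (0 : E) 1 \ ⋃ x ∈ t, closedBall x (r x)) = 0 ∧
      t.PairwiseDisjoint fun x => closedBall x (r x) := by
    intro k
    refine Besicovitch.exists_disjoint_closedBall_covering_ae ν
      (fun x => {r : ℝ | closedBall x r ⊆ ball (0 : E) 1}) (ball 0 1) ?_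
      (fun _ => 1 / ((k : ℝ) + 1)) (fun _ _ => by positivity)
    intro x hx δ hδ
    have h1 : ball (0 : E) 1 ∈ 𝓝 x := isOpen_ball.mem_nhds hx
    obtain ⟨ε, hε, h2⟩ := nhds_basis_closedBall.mem_iff.mp h1
    refine ⟨min ε (δ / 2), ?_, lt_min hε (by positivity), ?_⟩
    · exact (closedBall_subset_closedBall (min_le_left _ _)).trans h2
    · exact (min_le_right _ _).trans_lt (by linarith)
  choose t r htc hts hr hnull hdisj using cov
  set N : Set E := ⋃ k, (ball (0 : E) 1 \ ⋃ x ∈ t k, closedBall x (r k x)) with hN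
  have hN0 : ν N = 0 := by
    rw [hN]
    exact measure_iUnion_null hnull
  have hsum : ∀ k, ∑' x : t k, ediam (closedBall (x : E) (r k x)) ^ ((m : ℕ) : ℝ) ≤ 2 ^ m := by
    intro k
    have : Countable (t k) := (htc k).to_subtype
    have h1 : ∑' x : t k, ν (closedBall (x : E) (r k x)) ≤ ν (ball (0 : E) 1) := by
      rw [← measure_iUnion (ι := t k) (f := fun x => closedBall (x : E) (r k x))
        (fun (x y : t k) hxy => (hdisj k) x.2 y.2 (fun h => hxy (Subtype.ext h)))
        (fun x => measurableSet_closedBall)]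
      refine measure_mono (iUnion_subset fun x => ?_)
      exact (hr k x x.2).1
    have h2 : ∀ x : t k, ν (closedBall (x : E) (r k x))
        = ENNReal.ofReal (r k x ^ m) * ν (ball 0 1) := by
      intro x
      exact Measure.addHaar_closedBall ν (x : E) (hr k x x.2).2.1.le
    have h3 : ∑' x : t k, ν (closedBall (x : E) (r k x))
        = (∑' x : t k, ENNReal.ofReal (r k x ^ m)) * ν (ball (0 : E) 1) := by
      rw [← ENNReal.tsum_mul_right]
      exact tsum_congr h2
    have h4 : (∑' x : t k, ENNReal.ofReal (r k x ^ m)) ≤ 1 := by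
      rw [h3] at h1
      have h5 : (∑' x : t k, ENNReal.ofReal (r k x ^ m)) * ν (ball (0 : E) 1)
          ≤ 1 * ν (ball (0 : E) 1) := by rw [one_mul]; exact h1
      exact (ENNReal.mul_le_mul_iff_left hposb hfinb).mp h5
    calc ∑' x : t k, ediam (closedBall (x : E) (r k x)) ^ ((m : ℕ) : ℝ)
        ≤ ∑' x : t k, 2 ^ m * ENNReal.ofReal (r k x ^ m) := by
          refine ENNReal.tsum_le_tsum fun x => ?_
          have hx := (hr k x x.2).2.1.le
          rw [ENNReal.rpow_natCast, ENNReal.ofReal_pow hx, ← mul_pow]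
          gcongr
          have h6 : ediam (closedBall (x : E) (r k x)) ≤ 2 * ENNReal.ofReal (r k x) := by
            have h7 := ediam_closedEBall_le (x := (x : E)) (r := ENNReal.ofReal (r k x))
            rw [closedEBall_ofReal hx] at h7
            exact h7
          exact h6
      _ = 2 ^ m * ∑' x : t k, ENNReal.ofReal (r k x ^ m) := ENNReal.tsum_mul_left
      _ ≤ 2 ^ m * 1 := by gcongr
      _ = 2 ^ m := mul_one _
  have hmain : ν (ball (0 : E) 1 \ N) ≤ 2 ^ m := by
    have : ∀ k, Countable (t k) := fun k => (htc k).to_subtype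
    have h1 := Measure.hausdorffMeasure_le_liminf_tsum (ι := fun k => t k) ((m : ℕ) : ℝ)
      (ball (0 : E) 1 \ N) (l := atTop)
      (fun k : ℕ => ENNReal.ofReal (2 * (1 / ((k : ℝ) + 1)))) (by
        rw [← ENNReal.ofReal_zero]
        refine ENNReal.tendsto_ofReal ?_
        have := (tendsto_one_div_add_atTop_nhds_zero_nat (𝕜 := ℝ)).const_mul 2
        simpa using this)
      (fun k x => closedBall (x : E) (r k x))
      (Eventually.of_forall fun k x => by
        have hx := (hr k x x.2).2.1.le
        have h7 := ediam_closedEBall_le (x := (x : E)) (r := ENNReal.ofReal (r k x))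
        rw [closedEBall_ofReal hx] at h7
        refine h7.trans ?_
        rw [ENNReal.ofReal_mul (by norm_num)]
        have h8 : ENNReal.ofReal 2 = 2 := by simp
        rw [h8]
        gcongr
        exact (hr k x x.2).2.2.le)
      (Eventually.of_forall fun k x hx => by
        by_contra hcon
        refine hx.2 ?_
        rw [hN]
        refine mem_iUnion.mpr ⟨k, hx.1, ?_⟩
        intro hx2
        apply hcon
        simp only [mem_iUnion] at hx2 ⊢
        obtain ⟨y, hy, hxy⟩ := hx2
        exact ⟨⟨y, hy⟩, hxy⟩)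
    refine h1.trans ?_
    refine liminf_le_of_le (by isBoundedDefault) ?_
    intro b hb
    obtain ⟨k, hk⟩ := hb.exists
    exact hk.trans (hsum k)
  calc ν (ball (0 : E) 1) ≤ ν (ball (0 : E) 1 \ N) + ν N := by
        refine (measure_mono ?_).trans (measure_union_le _ _)
        intro x hx
        by_cases h : x ∈ N
        · exact Or.inr h
        · exact Or.inl ⟨hx, h⟩
    _ ≤ 2 ^ m + 0 := by rw [hN0]; gcongr
    _ = 2 ^ m := add_zero _

theorem hausdorff_ball :
    μH[(finrank ℝ E : ℕ)] (closedBall (0 : E) 1) = (2 : ℝ≥0∞) ^ (finrank ℝ E) :=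
  le_antisymm hausdorff_ball_le le_hausdorff_ball

end Iso

section Img

variable {F : Type*} [NormedAddCommGroup F] [NormedSpace ℝ F] [MeasurableSpace F] [BorelSpace F]

theorem hausdorff_image {m : ℕ} (L : (Fin m → ℝ) →ₗ[ℝ] F) (hL : Function.Injective L) (a : F)
    (Q : Set (Fin m → ℝ)) :
    μH[(m : ℕ)] ((fun t => a + L t) '' Q) * volume {t | ‖L t‖ ≤ 1} = 2 ^ m * volume Q := by
  let E := LinearMap.range L
  let e₀ : (Fin m → ℝ) ≃ₗ[ℝ] E := LinearEquiv.ofInjective L hL
  let e : (Fin m → ℝ) ≃L[ℝ] E := e₀.toContinuousLinearEquiv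
  have he : ∀ t, ((e t : E) : F) = L t := fun t => rfl
  have hfd : FiniteDimensional ℝ E := inferInstance
  have hrank : finrank ℝ E = m := by
    rw [← e₀.finrank_eq]
    simp
  -- the Hausdorff measure on `E`
  set μ : Measure E := μH[(m : ℕ)] with hμ
  have hμ' : μ.IsAddHaarMeasure := by
    have h := isAddHaarMeasure_hausdorffMeasure (E := E)
    rw [hrank] at h
    exact h
  have hball : μ (closedBall 0 1) = 2 ^ m := by
    have h := hausdorff_ball (E := E)
    rw [hrank] at h
    exact h
  have hem : Measurable e := e.continuous.measurable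
  have hesm : Measurable e.symm := e.symm.continuous.measurable
  have hmap : (Measure.map e.symm μ).IsAddHaarMeasure := e.symm.isAddHaarMeasure_map μ
  have hc' := Measure.isAddLeftInvariant_eq_smul (Measure.map e.symm μ)
    (volume : Measure (Fin m → ℝ))
  obtain ⟨c, hc⟩ : ∃ c : ℝ≥0∞, Measure.map e.symm μ = c • volume := ⟨_, hc'⟩
  let em : E ≃ᵐ (Fin m → ℝ) := e.symm.toHomeomorph.toMeasurableEquiv
  have hem2 : Measure.map em μ = c • volume := hc
  have key : ∀ A : Set (Fin m → ℝ), μ (e '' A) = c * volume A := by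
    intro A
    have h1 : (Measure.map em μ) A = μ (e '' A) := by
      rw [em.map_apply]
      congr 1
      ext x
      constructor
      · intro hx
        exact ⟨em x, hx, by simp [em]⟩
      · rintro ⟨y, hy, rfl⟩
        simpa [em] using hy
    rw [← h1, hem2]
    simp
  have himg : μH[(m : ℕ)] ((fun t => a + L t) '' Q) = μ (e '' Q) := by
    have hiso : Isometry (fun x : E => a + (x : F)) := by
      intro x y
      simp [edist_add_left, Subtype.edist_eq]
    have h1 := hiso.hausdorffMeasure_image (d := ((m : ℕ) : ℝ)) (Or.inl (by positivity)) (e '' Q)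
    rw [← h1, image_image]
    rfl
  have hB : e '' {t | ‖L t‖ ≤ 1} = closedBall 0 1 := by
    ext x
    rw [mem_closedBall, dist_zero_right]
    constructor
    · rintro ⟨t, ht, rfl⟩
      exact ht
    · intro hx
      refine ⟨e.symm x, ?_, by simp⟩
      have h2 : L (e.symm x) = (x : F) := by
        rw [← he]
        simp
      change ‖L (e.symm x)‖ ≤ 1
      rw [h2]
      exact hx
  rw [himg, key, ← hball, ← hB, key]
  ring

end Img

end Pool.Agent.Helper590_Face
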