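import Pool.Agent.Helper590_Face.Cyc
import Pool.Agent.Helper590_Face.Hd
import Pool.Agent.Helper590_Face.Contr

/-!
# From contracting projections to the face inequality
-/

set_option autoImplicit false

namespace Pool.Agent.Helper590_Face

open MeasureTheory Set Metric
open scoped ENNReal NNReal Topology

variable {p : ℝ≥0∞} [Fact (1 ≤ p)] {n d : ℕ}

theorem unit_vol_pos (L : (Fin (d + 1) → ℝ) →ₗ[ℝ] Lp p n) : volume {t | ‖L t‖ ≤ 1} ≠ 0 := by
  have hc : Continuous L := LinearMap.continuous_of_finiteDimensional L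
  have h1 : IsOpen {t | ‖L t‖ < 1} := isOpen_lt (by fun_prop) continuous_const
  have h2 : (0 : Fin (d + 1) → ℝ) ∈ {t | ‖L t‖ < 1} := by simp
  have h3 := h1.measure_pos volume ⟨0, h2⟩
  exact (h3.trans_le (measure_mono fun t (ht : ‖L t‖ < 1) => (ht.le : ‖L t‖ ≤ 1))).ne'

theorem unit_vol_fin (L : (Fin (d + 1) → ℝ) →ₗ[ℝ] Lp p n) (hL : Function.Injective L) :
    volume {t | ‖L t‖ ≤ 1} ≠ ∞ := by
  obtain ⟨K, hK, hanti⟩ := L.exists_antilipschitzWith (LinearMap.ker_eq_bot.mpr hL)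
  have h1 : {t | ‖L t‖ ≤ 1} ⊆ closedBall 0 K := by
    intro t ht
    have h2 := hanti.le_mul_dist t 0
    rw [map_zero, dist_zero_right, dist_zero_right] at h2
    rw [mem_closedBall, dist_zero_right]
    have h3 : ‖L t‖ ≤ 1 := ht
    calc ‖t‖ ≤ K * ‖L t‖ := h2
      _ ≤ K * 1 := by gcongr
      _ = K := mul_one _
  exact ((measure_mono h1).trans_lt measure_closedBall_lt_top).ne

theorem carrier_measure (F : Face p n d) :
    μH[((d + 1 : ℕ) : ℝ)] F.carrier * volume {t | ‖F.lin t‖ ≤ 1} = 2 ^ (d + 1) * volume F.dom :=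
  hausdorff_image F.lin F.lin_injective F.base F.dom

theorem face_of_contr (P : Chain p n d) (hP : P.IsCycle) (i₀ : Fin P.k)
    (pr : Lp p n →ₗ[ℝ] (Fin (d + 1) → ℝ)) (hpr : pr ∘ₗ (P.face i₀).lin = LinearMap.id)
    (hc : ∀ j, ENNReal.ofReal |LinearMap.det (pr ∘ₗ (P.face j).lin)| *
      volume {t | ‖(P.face j).lin t‖ ≤ 1} ≤ volume {t | ‖(P.face i₀).lin t‖ ≤ 1}) :
    μH[((d + 1 : ℕ) : ℝ)] (P.face i₀).carrier ≤
      ∑ j ∈ Finset.univ.erase i₀, μH[((d + 1 : ℕ) : ℝ)] (P.face j).carrier := by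
  set β := volume {t | ‖(P.face i₀).lin t‖ ≤ 1} with hβ
  have hβ0 : β ≠ 0 := unit_vol_pos _
  have hβ1 : β ≠ ∞ := unit_vol_fin _ (P.face i₀).lin_injective
  have h1 : μH[((d + 1 : ℕ) : ℝ)] (P.face i₀).carrier * β ≤
      (∑ j ∈ Finset.univ.erase i₀, μH[((d + 1 : ℕ) : ℝ)] (P.face j).carrier) * β := by
    rw [carrier_measure]
    calc 2 ^ (d + 1) * volume (P.face i₀).dom
        ≤ 2 ^ (d + 1) * ∑ j ∈ Finset.univ.erase i₀,
          ENNReal.ofReal |LinearMap.det (pr ∘ₗ (P.face j).lin)| * volume (P.face j).dom := by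
          gcongr
          exact cover P hP i₀ pr hpr
      _ = ∑ j ∈ Finset.univ.erase i₀, ENNReal.ofReal |LinearMap.det (pr ∘ₗ (P.face j).lin)| *
          (2 ^ (d + 1) * volume (P.face j).dom) := by
          rw [Finset.mul_sum]
          refine Finset.sum_congr rfl fun j _ => ?_
          ring
      _ = ∑ j ∈ Finset.univ.erase i₀, μH[((d + 1 : ℕ) : ℝ)] (P.face j).carrier *
          (ENNReal.ofReal |LinearMap.det (pr ∘ₗ (P.face j).lin)| *
            volume {t | ‖(P.face j).lin t‖ ≤ 1}) := by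
          refine Finset.sum_congr rfl fun j _ => ?_
          rw [← carrier_measure]
          ring
      _ ≤ ∑ j ∈ Finset.univ.erase i₀, μH[((d + 1 : ℕ) : ℝ)] (P.face j).carrier * β := by
          gcongr with j _
          exact hc j
      _ = _ := by rw [Finset.sum_mul]
  exact (ENNReal.mul_le_mul_iff_left hβ0 hβ1).mp h1

/-- For every dimension `d + 1` there is `ε > 0` such that the face inequality holds in `ℓ^p_n`
for all `n` and all `p ∈ (2 - ε, 2)`. -/
theorem face_near_two (d : ℕ) : ∃ ε : ℝ, 0 < ε ∧ ∀ (n : ℕ) (p : ℝ≥0∞) [Fact (1 ≤ p)],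
    2 - ε < p.toReal → p.toReal < 2 → ∀ P : Chain p n d, P.IsCycle → ∀ i₀ : Fin P.k,
      μH[((d + 1 : ℕ) : ℝ)] (P.face i₀).carrier ≤
        ∑ j ∈ Finset.univ.erase i₀, μH[((d + 1 : ℕ) : ℝ)] (P.face j).carrier := by
  obtain ⟨p₀, hp32, hp₀, hcon⟩ := contractor (d + 1) (Nat.succ_pos d)
  refine ⟨2 - p₀, by linarith, ?_⟩
  intro n p _ hp hp2 P hP i₀
  have hp' : p₀ < p.toReal := by linarith
  let e := WithLp.linearEquiv p ℝ (Fin n → ℝ)
  have hnorm : ∀ x : Lp p n, ‖x‖ = nrm p.toReal (e x) := by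
    intro x
    rw [PiLp.norm_eq_sum (by linarith)]
    simp only [nrm, Real.norm_eq_abs]
    rfl
  obtain ⟨pr, hpr, hdet⟩ := hcon p.toReal hp' hp2 n (e.toLinearMap ∘ₗ (P.face i₀).lin)
    (e.injective.comp (P.face i₀).lin_injective)
  refine face_of_contr P hP i₀ (pr ∘ₗ e.toLinearMap) ?_ ?_
  · rw [LinearMap.comp_assoc]
    exact hpr
  · intro j
    have h1 := hdet (e.toLinearMap ∘ₗ (P.face j).lin)
    simp only [hnorm]
    exact h1

end Pool.Agent.Helper590_Face
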