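import Pool.Agent.Helper590_Face.An

/-!
# The main integral inequality, integrated form
-/

set_option autoImplicit false

namespace Pool.Agent.Helper590_Face

open MeasureTheory Set Real Metric

theorem integrable_gauss {m : ℕ} (hm : 0 < m) :
    Integrable (fun x : Fin m → ℝ => exp (-(‖x‖ ^ 2 / 8))) := by
  have h1 : ∀ i : Fin m, Integrable (fun t : ℝ => exp (-(1 / (8 * m)) * t ^ 2)) := fun i =>
    integrable_exp_neg_mul_sq (by positivity)
  have h2 := Integrable.fintype_prod (ι := Fin m) (E := ℝ) (μ := fun _ => volume) h1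
  refine h2.mono' ?_ ?_
  · exact (by fun_prop : Continuous (fun x : Fin m → ℝ => exp (-(‖x‖ ^ 2 / 8)))).aestronglyMeasurable
  · refine Filter.Eventually.of_forall fun x => ?_
    rw [Real.norm_of_nonneg (exp_pos _).le, ← Real.exp_sum]
    apply Real.exp_le_exp.mpr
    rw [← Finset.mul_sum]
    have h3 : ∑ i, x i ^ 2 ≤ m * ‖x‖ ^ 2 := by
      calc ∑ i, x i ^ 2 ≤ ∑ _i : Fin m, ‖x‖ ^ 2 := by
            refine Finset.sum_le_sum fun i _ => ?_
            have := norm_le_pi_norm x i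
            rw [Real.norm_eq_abs] at this
            calc x i ^ 2 = |x i| ^ 2 := (sq_abs _).symm
              _ ≤ ‖x‖ ^ 2 := by gcongr
        _ = m * ‖x‖ ^ 2 := by simp
    have hm' : (0 : ℝ) < m := by exact_mod_cast hm
    have h4 : 1 / (8 * (m : ℝ)) * ∑ i, x i ^ 2 ≤ 1 / (8 * (m : ℝ)) * (m * ‖x‖ ^ 2) := by
      gcongr
    have h5 : 1 / (8 * (m : ℝ)) * (m * ‖x‖ ^ 2) = ‖x‖ ^ 2 / 8 := by
      field_simp
    linarith

/-- lower bound of an integral by a small ball -/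
theorem integral_ge_ball {m : ℕ} {f : (Fin m → ℝ) → ℝ} (hf : Integrable f) (hf0 : ∀ x, 0 ≤ f x)
    (x₀ : Fin m → ℝ) {c : ℝ} (hc : ∀ x ∈ closedBall x₀ (1 / 4), c ≤ f x) :
    c * (1 / 2) ^ m ≤ ∫ x, f x := by
  have h1 : ∫ x in closedBall x₀ (1 / 4), c ≤ ∫ x in closedBall x₀ (1 / 4), f x := by
    refine setIntegral_mono_on ?_ hf.integrableOn measurableSet_closedBall hc
    exact integrableOn_const (measure_closedBall_lt_top).ne
  have h2 : ∫ x in closedBall x₀ (1 / 4), f x ≤ ∫ x, f x :=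
    setIntegral_le_integral hf (Filter.Eventually.of_forall hf0)
  have h3 : ∫ x in closedBall x₀ (1 / 4), c = c * (1 / 2) ^ m := by
    rw [setIntegral_const, Measure.real, Real.volume_pi_closedBall _ (by norm_num)]
    rw [ENNReal.toReal_ofReal (by positivity), smul_eq_mul, Fintype.card_fin]
    norm_num
    ring
  linarith

/-- a continuous seminorm attains its maximum on the unit ball; near three quarters of the maximum
point it is at least half the maximum -/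
theorem seminorm_ball {m : ℕ} {ρ : (Fin m → ℝ) → ℝ} (hc : Continuous ρ)
    (hadd : ∀ x y, ρ (x + y) ≤ ρ x + ρ y) (hsm : ∀ (c : ℝ) x, ρ (c • x) = |c| * ρ x) :
    ∃ (r : ℝ) (x₀ : Fin m → ℝ), 0 ≤ r ∧ ‖x₀‖ ≤ 1 ∧ (∀ x, ρ x ≤ r * ‖x‖) ∧ ρ x₀ = r ∧
      ∀ x ∈ closedBall ((3 / 4 : ℝ) • x₀) (1 / 4), r / 2 ≤ ρ x ∧ ‖x‖ ≤ 1 := by
  have hρ0 : ρ 0 = 0 := by
    have := hsm 0 0
    simpa using this
  have hneg : ∀ x, ρ (-x) = ρ x := by
    intro x
    have := hsm (-1) x
    simpa using this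
  have hnn : ∀ x, 0 ≤ ρ x := by
    intro x
    have h1 := hadd x (-x)
    rw [add_neg_cancel, hρ0, hneg] at h1
    linarith
  obtain ⟨x₀, hx₀, hmax⟩ := (isCompact_closedBall (0 : Fin m → ℝ) 1).exists_isMaxOn
    ⟨0, by simp⟩ hc.continuousOn
  have hx₀' : ‖x₀‖ ≤ 1 := by simpa using hx₀
  have hb : ∀ x, ρ x ≤ ρ x₀ * ‖x‖ := by
    intro x
    rcases eq_or_ne x 0 with rfl | hx
    · simp [hρ0]
    · have hxn : 0 < ‖x‖ := norm_pos_iff.mpr hx
      have h1 : ρ (‖x‖⁻¹ • x) ≤ ρ x₀ := by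
        apply hmax
        rw [mem_closedBall, dist_zero_right, norm_smul, norm_inv, norm_norm,
          inv_mul_cancel₀ hxn.ne']
      rw [hsm, abs_of_pos (inv_pos.mpr hxn)] at h1
      have := mul_le_mul_of_nonneg_right h1 hxn.le
      rw [mul_comm (‖x‖⁻¹), mul_assoc, inv_mul_cancel₀ hxn.ne', mul_one] at this
      exact this
  refine ⟨ρ x₀, x₀, hnn _, hx₀', hb, rfl, ?_⟩
  intro x hx
  rw [mem_closedBall, dist_eq_norm] at hx
  constructor
  · have h1 := hadd x (((3 / 4 : ℝ) • x₀) - x)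
    rw [add_sub_cancel, hsm] at h1
    have h2 := hb (((3 / 4 : ℝ) • x₀) - x)
    rw [norm_sub_rev] at h2
    have h3 : ρ x₀ * ‖x - (3 / 4 : ℝ) • x₀‖ ≤ ρ x₀ * (1 / 4) := by
      have := hnn x₀
      gcongr
    rw [abs_of_pos (by norm_num)] at h1
    linarith
  · have h1 : ‖x‖ ≤ ‖x - (3 / 4 : ℝ) • x₀‖ + ‖(3 / 4 : ℝ) • x₀‖ := by
      have := norm_add_le (x - (3 / 4 : ℝ) • x₀) ((3 / 4 : ℝ) • x₀)
      rwa [sub_add_cancel] at this
    rw [norm_smul, Real.norm_of_nonneg (by norm_num)] at h1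
    linarith

/-- the main integral inequality -/
theorem main_int (m : ℕ) (hm : 0 < m) : ∃ δ₀ : ℝ, 0 < δ₀ ∧ ∀ (N ρ G : (Fin m → ℝ) → ℝ),
    Continuous N → (∀ x, ‖x‖ ≤ N x) → (∀ x, N x ≤ m * ‖x‖) → Continuous ρ →
    (∀ x y, ρ (x + y) ≤ ρ x + ρ y) → (∀ (c : ℝ) x, ρ (c • x) = |c| * ρ x) → Measurable G →
    (∀ x, |G x| ≤ δ₀ * ‖x‖ * ρ x) → ∫ x, exp (-(N x ^ 2 / 2)) * G x = 0 →
    Integrable (fun x => exp (-(N x ^ 2 / 2)) * exp (-G x - ρ x ^ 2 / 12)) ∧
    ∫ x, exp (-(N x ^ 2 / 2)) * exp (-G x - ρ x ^ 2 / 12) ≤ ∫ x, exp (-(N x ^ 2 / 2)) := by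
  set Γ := ∫ x : Fin m → ℝ, exp (-(‖x‖ ^ 2 / 8)) with hΓ
  have hΓ0 : 0 ≤ Γ := integral_nonneg fun x => (exp_pos _).le
  set κ := exp (-(m : ℝ) ^ 2 / 2) * (1 / 2) ^ m / 200 with hκ
  have hκ0 : 0 < κ := by positivity
  set δ := min (1 / 7) (κ / (300 * (Γ + 1))) with hδ
  have hδ0 : 0 < δ := lt_min (by norm_num) (by positivity)
  have hδ1 : δ ≤ 1 / 7 := min_le_left _ _
  have hδ2 : 300 * δ * Γ ≤ κ := by
    have h1 : δ ≤ κ / (300 * (Γ + 1)) := min_le_right _ _
    rw [le_div_iff₀ (by positivity)] at h1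
    nlinarith
  refine ⟨δ, hδ0, ?_⟩
  intro N ρ G hN hN1 hN2 hρ hadd hsm hG hGb hG0
  obtain ⟨r, x₀, hr0, hx₀, hρr, -, hball⟩ := seminorm_ball hρ hadd hsm
  have hρ0 : ρ 0 = 0 := by
    have := hsm 0 0
    simpa using this
  have hneg : ∀ x, ρ (-x) = ρ x := by
    intro x
    have := hsm (-1) x
    simpa using this
  have hnn : ∀ x, 0 ≤ ρ x := by
    intro x
    have h1 := hadd x (-x)
    rw [add_neg_cancel, hρ0, hneg] at h1
    linarith
  have hint8 := integrable_gauss hm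
  set w : (Fin m → ℝ) → ℝ := fun x => exp (-(N x ^ 2 / 2)) with hw
  have hw0 : ∀ x, 0 < w x := fun x => exp_pos _
  have hwt : ∀ x, w x ≤ exp (-(‖x‖ ^ 2 / 2)) := by
    intro x
    apply Real.exp_le_exp.mpr
    have h1 : ‖x‖ ^ 2 ≤ N x ^ 2 := by
      have := hN1 x
      gcongr
    linarith
  have hwt8 : ∀ x, w x ≤ exp (-(‖x‖ ^ 2 / 8)) := by
    intro x
    refine (hwt x).trans (Real.exp_le_exp.mpr ?_)
    linarith [sq_nonneg ‖x‖]
  have hwc : Continuous w := by fun_prop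
  have hwi : Integrable w := by
    refine hint8.mono' hwc.aestronglyMeasurable (Filter.Eventually.of_forall fun x => ?_)
    rw [Real.norm_of_nonneg (hw0 x).le]
    exact hwt8 x
  -- lower bound of the weight on the unit ball
  have hwl : ∀ x, ‖x‖ ≤ 1 → exp (-(m : ℝ) ^ 2 / 2) ≤ w x := by
    intro x hx
    apply Real.exp_le_exp.mpr
    have h1 : N x ≤ m := by
      refine (hN2 x).trans ?_
      have : (0 : ℝ) ≤ m := by positivity
      nlinarith
    have h2 : 0 ≤ N x := (norm_nonneg x).trans (hN1 x)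
    have h3 : N x ^ 2 ≤ (m : ℝ) ^ 2 := by gcongr
    linarith
  have hwGi : Integrable (fun x => w x * G x) := by
    -- `|w G| ≤ C exp(-t^2/8)`
    refine (hint8.const_mul (8 * r)).mono' (hwc.measurable.mul hG).aestronglyMeasurable
      (Filter.Eventually.of_forall fun x => ?_)
    rw [norm_mul, Real.norm_of_nonneg (hw0 x).le, Real.norm_eq_abs]
    have h1 : |G x| ≤ r * ‖x‖ ^ 2 := by
      calc |G x| ≤ δ * ‖x‖ * ρ x := hGb x
        _ ≤ 1 * ‖x‖ * (r * ‖x‖) := by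
            have := hρr x
            have := hnn x
            gcongr
            linarith
        _ = r * ‖x‖ ^ 2 := by ring
    have h7 : ‖x‖ ^ 2 ≤ 8 * exp (‖x‖ ^ 2 / 8) := by
      linarith [Real.add_one_le_exp (‖x‖ ^ 2 / 8)]
    calc w x * |G x| ≤ exp (-(‖x‖ ^ 2 / 2)) * (r * (8 * exp (‖x‖ ^ 2 / 8))) := by
          have := hwt x
          have := hw0 x
          gcongr
          exact h1.trans (by gcongr)
      _ = 8 * r * (exp (-(‖x‖ ^ 2 / 2)) * exp (‖x‖ ^ 2 / 8)) := by ring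
      _ ≤ 8 * r * exp (-(‖x‖ ^ 2 / 8)) := by
          gcongr
          rw [← Real.exp_add]
          apply Real.exp_le_exp.mpr
          linarith [sq_nonneg ‖x‖]
  have hexpi : ∀ a : ℝ, 0 ≤ a → Integrable (fun x => w x * exp (-(ρ x ^ 2 / a))) := by
    intro a ha
    refine hwi.mono' (by fun_prop) (Filter.Eventually.of_forall fun x => ?_)
    rw [norm_mul, Real.norm_of_nonneg (hw0 x).le, Real.norm_of_nonneg (exp_pos _).le]
    have : exp (-(ρ x ^ 2 / a)) ≤ 1 := by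
      rw [Real.exp_le_one_iff]
      have : 0 ≤ ρ x ^ 2 / a := by positivity
      linarith
    have := hw0 x
    nlinarith
  have hcomb : ∀ a : ℝ, 0 < a → ∀ c : ℝ, (∀ x ∈ closedBall ((3 / 4 : ℝ) • x₀) (1 / 4),
      c ≤ 1 - exp (-(ρ x ^ 2 / a))) → 0 ≤ c →
      ∫ x, w x * exp (-(ρ x ^ 2 / a)) ≤ (∫ x, w x) - exp (-(m : ℝ) ^ 2 / 2) * c * (1 / 2) ^ m := by
    intro a ha c hc hc0
    have h1 : Integrable (fun x => w x - w x * exp (-(ρ x ^ 2 / a))) := hwi.sub (hexpi a ha.le)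
    have h2 := integral_ge_ball h1 (fun x => by
      have : exp (-(ρ x ^ 2 / a)) ≤ 1 := by
        rw [Real.exp_le_one_iff]
        have : 0 ≤ ρ x ^ 2 / a := by positivity
        linarith
      have := hw0 x
      nlinarith) ((3 / 4 : ℝ) • x₀) (c := exp (-(m : ℝ) ^ 2 / 2) * c) (by
      intro x hx
      have h3 := hc x hx
      have h4 := hwl x (hball x hx).2
      have h5 : w x - w x * exp (-(ρ x ^ 2 / a)) = w x * (1 - exp (-(ρ x ^ 2 / a))) := by ring
      rw [h5]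
      have := (exp_pos (-(m : ℝ) ^ 2 / 2)).le
      gcongr)
    rw [integral_sub hwi (hexpi a ha.le)] at h2
    linarith
  rcases le_or_gt r 1 with hr | hr
  · -- small case
    have h1 : ∀ x, w x * exp (-G x - ρ x ^ 2 / 12) ≤ w x * exp (-(ρ x ^ 2 / 12)) - w x * G x +
        300 * δ * r ^ 2 * exp (-(‖x‖ ^ 2 / 8)) := by
      intro x
      have := pw_small (norm_nonneg x) (hnn x) hδ0.le hδ1 hr0 hr (hρr x) (hGb x) (hw0 x).le (hwt x)
      linarith
    have hRi : Integrable (fun x => w x * exp (-(ρ x ^ 2 / 12)) - w x * G x +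
        300 * δ * r ^ 2 * exp (-(‖x‖ ^ 2 / 8))) :=
      ((hexpi 12 (by norm_num)).sub hwGi).add (hint8.const_mul _)
    have hLi : Integrable (fun x => w x * exp (-G x - ρ x ^ 2 / 12)) := by
      refine hRi.mono' (by fun_prop) (Filter.Eventually.of_forall fun x => ?_)
      rw [Real.norm_of_nonneg (by have := hw0 x; positivity)]
      exact h1 x
    have h2 := integral_mono hLi hRi h1
    have e2 := integral_add (f := fun x => w x * exp (-(ρ x ^ 2 / 12)) - w x * G x)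
      (g := fun x => 300 * δ * r ^ 2 * exp (-(‖x‖ ^ 2 / 8)))
      ((hexpi 12 (by norm_num)).sub hwGi) (hint8.const_mul _)
    rw [e2, integral_sub (hexpi 12 (by norm_num)) hwGi, hG0, integral_const_mul] at h2
    have h3 := hcomb 12 (by norm_num) (r ^ 2 / 96) (by
      intro x hx
      have h4 := (hball x hx).1
      have h5 : r ^ 2 / 48 ≤ ρ x ^ 2 / 12 := by
        have : (r / 2) ^ 2 ≤ ρ x ^ 2 := by gcongr
        linarith
      have h6 := half_le_one_sub_exp (u := r ^ 2 / 48) (by positivity) (by nlinarith)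
      have h7 : exp (-(ρ x ^ 2 / 12)) ≤ exp (-(r ^ 2 / 48)) := by
        apply Real.exp_le_exp.mpr
        linarith
      linarith) (by positivity)
    have h8 : 300 * δ * r ^ 2 * Γ ≤ r ^ 2 * κ := by
      nlinarith [sq_nonneg r]
    have h9 : r ^ 2 * κ ≤ exp (-(m : ℝ) ^ 2 / 2) * (r ^ 2 / 96) * (1 / 2) ^ m := by
      rw [hκ]
      have : 0 ≤ exp (-(m : ℝ) ^ 2 / 2) * (1 / 2) ^ m * r ^ 2 := by positivity
      nlinarith
    exact ⟨hLi, by linarith⟩
  · -- large case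
    have h1 : ∀ x, w x * exp (-G x - ρ x ^ 2 / 12) ≤ w x * exp (-(ρ x ^ 2 / 24)) +
        48 * δ * exp (-(‖x‖ ^ 2 / 8)) := by
      intro x
      exact pw_large hδ0.le hδ1 (hGb x) (hw0 x).le (hwt x)
    have hRi : Integrable (fun x => w x * exp (-(ρ x ^ 2 / 24)) +
        48 * δ * exp (-(‖x‖ ^ 2 / 8))) :=
      (hexpi 24 (by norm_num)).add (hint8.const_mul _)
    have hLi : Integrable (fun x => w x * exp (-G x - ρ x ^ 2 / 12)) := by
      refine hRi.mono' (by fun_prop) (Filter.Eventually.of_forall fun x => ?_)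
      rw [Real.norm_of_nonneg (by have := hw0 x; positivity)]
      exact h1 x
    have h2 := integral_mono hLi hRi h1
    rw [integral_add (hexpi 24 (by norm_num)) (hint8.const_mul _), integral_const_mul] at h2
    have h3 := hcomb 24 (by norm_num) (1 / 192) (by
      intro x hx
      have h4 := (hball x hx).1
      have h5 : 1 / 96 ≤ ρ x ^ 2 / 24 := by
        have : (1 / 2) ^ 2 ≤ ρ x ^ 2 := by
          have : 1 / 2 ≤ ρ x := by linarith
          gcongr
        linarith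
      have h6 := half_le_one_sub_exp (u := 1 / 96) (by positivity) (by norm_num)
      have h7 : exp (-(ρ x ^ 2 / 24)) ≤ exp (-(1 / 96)) := by
        apply Real.exp_le_exp.mpr
        linarith
      linarith) (by positivity)
    have h8 : 48 * δ * Γ ≤ κ := by
      have : 0 ≤ δ * Γ := by positivity
      linarith
    have h9 : κ ≤ exp (-(m : ℝ) ^ 2 / 2) * (1 / 192) * (1 / 2) ^ m := by
      rw [hκ]
      have : 0 ≤ exp (-(m : ℝ) ^ 2 / 2) * (1 / 2) ^ m := by positivity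
      nlinarith
    exact ⟨hLi, by linarith⟩

end Pool.Agent.Helper590_Face
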