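import Pool.Agent.Helper590_Face.Uc

/-!
# The `ℓ_p` norm and its uniform convexity
-/

set_option autoImplicit false

namespace Pool.Agent.Helper590_Face

open Set Real Finset

variable {ι : Type*} [Fintype ι]

/-- the `ℓ_p` norm -/
noncomputable def nrm (p : ℝ) (x : ι → ℝ) : ℝ := (∑ i, |x i| ^ p) ^ (1 / p)

theorem sum_rpow_nonneg (p : ℝ) (x : ι → ℝ) : 0 ≤ ∑ i, |x i| ^ p :=
  Finset.sum_nonneg fun _ _ => Real.rpow_nonneg (abs_nonneg _) _

theorem nrm_nonneg (p : ℝ) (x : ι → ℝ) : 0 ≤ nrm p x := Real.rpow_nonneg (sum_rpow_nonneg p x) _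

theorem nrm_rpow {p : ℝ} (hp : 0 < p) (x : ι → ℝ) : nrm p x ^ p = ∑ i, |x i| ^ p := by
  rw [nrm, ← Real.rpow_mul (sum_rpow_nonneg p x)]
  have : 1 / p * p = 1 := by field_simp
  rw [this, Real.rpow_one]

theorem nrm_add_le {p : ℝ} (hp : 1 ≤ p) (x y : ι → ℝ) : nrm p (x + y) ≤ nrm p x + nrm p y :=
  Real.Lp_add_le _ _ _ hp

theorem nrm_smul {p : ℝ} (hp : 0 < p) (c : ℝ) (x : ι → ℝ) : nrm p (c • x) = |c| * nrm p x := by
  have h1 : ∑ i, |(c • x) i| ^ p = |c| ^ p * ∑ i, |x i| ^ p := by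
    rw [Finset.mul_sum]
    refine Finset.sum_congr rfl fun i _ => ?_
    rw [Pi.smul_apply, smul_eq_mul, abs_mul, Real.mul_rpow (abs_nonneg _) (abs_nonneg _)]
  rw [nrm, nrm, h1, Real.mul_rpow (Real.rpow_nonneg (abs_nonneg _) _) (sum_rpow_nonneg p x),
    ← Real.rpow_mul (abs_nonneg _)]
  have : p * (1 / p) = 1 := by field_simp
  rw [this, Real.rpow_one]

theorem nrm_zero {p : ℝ} (hp : 0 < p) : nrm p (0 : ι → ℝ) = 0 := by
  have := nrm_smul hp 0 (0 : ι → ℝ)
  simpa using this

theorem abs_le_nrm {p : ℝ} (hp : 0 < p) (x : ι → ℝ) (i : ι) : |x i| ≤ nrm p x := by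
  have h1 : |x i| ^ p ≤ nrm p x ^ p := by
    rw [nrm_rpow hp]
    exact Finset.single_le_sum (f := fun i => |x i| ^ p)
      (fun i _ => Real.rpow_nonneg (abs_nonneg _) _) (Finset.mem_univ i)
  exact (Real.rpow_le_rpow_iff (abs_nonneg _) (nrm_nonneg p x) hp).mp h1

theorem nrm_eq_zero {p : ℝ} (hp : 0 < p) {x : ι → ℝ} (h : nrm p x = 0) : x = 0 := by
  ext i
  have := abs_le_nrm hp x i
  rw [h] at this
  simpa using this

theorem nrm_abs {p : ℝ} (x : ι → ℝ) : nrm p (fun i => |x i|) = nrm p x := by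
  simp [nrm]

theorem nrm_neg {p : ℝ} (x : ι → ℝ) : nrm p (-x) = nrm p x := by
  simp [nrm]

/-- Hölder for the dual pairing -/
theorem sum_rpow_mul_le {p : ℝ} (hp : 1 < p) (a b : ι → ℝ) :
    ∑ i, |a i| ^ (p - 1) * |b i| ≤ nrm p a ^ (p - 1) * nrm p b := by
  have hpq : (p / (p - 1)).HolderConjugate p := by
    have h0 : 0 < p - 1 := by linarith
    have := Real.HolderConjugate.conjExponent hp
    exact this.symm
  have h := Real.inner_le_Lp_mul_Lq (Finset.univ) (fun i => |a i| ^ (p - 1)) (fun i => |b i|) hpq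
  refine h.trans (le_of_eq ?_)
  have e1 : ∀ i, |(|a i| ^ (p - 1))| ^ (p / (p - 1)) = |a i| ^ p := by
    intro i
    rw [abs_of_nonneg (Real.rpow_nonneg (abs_nonneg _) _), ← Real.rpow_mul (abs_nonneg _)]
    congr 1
    have : p - 1 ≠ 0 := by linarith
    field_simp
  simp only [e1, abs_abs]
  congr 1
  rw [nrm, ← Real.rpow_mul (sum_rpow_nonneg p a)]
  congr 1
  have : p - 1 ≠ 0 := by linarith
  have : p ≠ 0 := by linarith
  field_simp

theorem abs_sum_sp_mul_le {p : ℝ} (hp : 1 < p) (a b : ι → ℝ) :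
    |∑ i, sp p (a i) * b i| ≤ nrm p a ^ (p - 1) * nrm p b := by
  refine (Finset.abs_sum_le_sum_abs _ _).trans ?_
  refine le_trans (le_of_eq ?_) (sum_rpow_mul_le hp a b)
  refine Finset.sum_congr rfl fun i _ => ?_
  rw [abs_mul, abs_sp hp]

/-- reverse Hölder type bound -/
theorem sum_sq_ge {p : ℝ} (hp : 1 < p) (hp2 : p < 2) (b c : ι → ℝ) (hbc : ∀ i, |b i| ≤ c i) :
    nrm p b ^ 2 ≤ (∑ i, c i ^ (p - 2) * b i ^ 2) * nrm p c ^ (2 - p) := by
  have hc : ∀ i, 0 ≤ c i := fun i => (abs_nonneg _).trans (hbc i)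
  have hpq : (2 / p).HolderConjugate (2 / (2 - p)) := by
    rw [Real.holderConjugate_iff]
    constructor
    · rw [lt_div_iff₀ (by linarith)]; linarith
    · have : p ≠ 0 := by linarith
      have : 2 - p ≠ 0 := by linarith
      field_simp
      ring
  have h := Real.inner_le_Lp_mul_Lq (Finset.univ) (fun i => |b i| ^ p * c i ^ (p * (p - 2) / 2))
    (fun i => c i ^ (p * (2 - p) / 2)) hpq
  have e1 : ∀ i, |b i| ^ p * c i ^ (p * (p - 2) / 2) * c i ^ (p * (2 - p) / 2) = |b i| ^ p := by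
    intro i
    rcases (hc i).eq_or_lt with h0 | h0
    · have hb : |b i| = 0 := le_antisymm (h0 ▸ hbc i) (abs_nonneg _)
      rw [hb, Real.zero_rpow (by linarith)]
      simp
    · rw [mul_assoc, ← Real.rpow_add h0]
      have : p * (p - 2) / 2 + p * (2 - p) / 2 = 0 := by ring
      rw [this, Real.rpow_zero, mul_one]
  have e2 : ∀ i, |(|b i| ^ p * c i ^ (p * (p - 2) / 2))| ^ (2 / p) = c i ^ (p - 2) * b i ^ 2 := by
    intro i
    rw [abs_of_nonneg (mul_nonneg (Real.rpow_nonneg (abs_nonneg _) _)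
      (Real.rpow_nonneg (hc i) _)), Real.mul_rpow (Real.rpow_nonneg (abs_nonneg _) _)
      (Real.rpow_nonneg (hc i) _), ← Real.rpow_mul (abs_nonneg _), ← Real.rpow_mul (hc i)]
    have hp0 : p ≠ 0 := by linarith
    have k1 : p * (2 / p) = 2 := by field_simp
    have k2 : p * (p - 2) / 2 * (2 / p) = p - 2 := by field_simp
    rw [k1, k2]
    have k3 : |b i| ^ (2 : ℝ) = b i ^ 2 := by
      rw [Real.rpow_two, sq_abs]
    rw [k3]
    ring
  have e3 : ∀ i, |c i ^ (p * (2 - p) / 2)| ^ (2 / (2 - p)) = |c i| ^ p := by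
    intro i
    rw [abs_of_nonneg (Real.rpow_nonneg (hc i) _), ← Real.rpow_mul (hc i), abs_of_nonneg (hc i)]
    congr 1
    have : 2 - p ≠ 0 := by linarith
    field_simp
  simp only [e1, e2, e3] at h
  have hp0 : p ≠ 0 := by linarith
  have h2p : 2 - p ≠ 0 := by linarith
  set A := ∑ i, c i ^ (p - 2) * b i ^ 2 with hA
  have hA0 : 0 ≤ A := Finset.sum_nonneg fun i _ => mul_nonneg (Real.rpow_nonneg (hc i) _)
    (sq_nonneg _)
  have h2 : (∑ i, |b i| ^ p) ^ (2 / p) ≤
      (A ^ (1 / (2 / p)) * (∑ i, |c i| ^ p) ^ (1 / (2 / (2 - p)))) ^ (2 / p) :=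
    Real.rpow_le_rpow (sum_rpow_nonneg p b) h (by positivity)
  rw [Real.mul_rpow (Real.rpow_nonneg hA0 _) (Real.rpow_nonneg (sum_rpow_nonneg p c) _),
    ← Real.rpow_mul hA0, ← Real.rpow_mul (sum_rpow_nonneg p c)] at h2
  have k1 : 1 / (2 / p) * (2 / p) = 1 := by field_simp
  have k2 : 1 / (2 / (2 - p)) * (2 / p) = (1 / p) * (2 - p) := by field_simp
  rw [k1, k2, Real.rpow_one, Real.rpow_mul (sum_rpow_nonneg p c)] at h2
  have k3 : (∑ i, |b i| ^ p) ^ (2 / p) = nrm p b ^ 2 := by
    rw [nrm, ← Real.rpow_two, ← Real.rpow_mul (sum_rpow_nonneg p b)]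
    congr 1
    ring
  rw [k3] at h2
  exact h2

/-- `2`-uniform convexity -/
theorem uc {p : ℝ} (hp : 3 / 2 ≤ p) (hp2 : p < 2) (a b : ι → ℝ) :
    nrm p a ^ 2 / 2 + nrm p a ^ (2 - p) * (∑ i, sp p (a i) * b i) + nrm p b ^ 2 / 12
      ≤ nrm p (a + b) ^ 2 / 2 := by
  have hp1 : 1 < p := by linarith
  have hp0 : 0 < p := by linarith
  set α := nrm p a with hα
  set β := nrm p b with hβ
  have hα0 : 0 ≤ α := nrm_nonneg p a
  have hβ0 : 0 ≤ β := nrm_nonneg p b
  set P := ∑ i, sp p (a i) * b i with hP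
  have hPle : |P| ≤ α ^ (p - 1) * β := abs_sum_sp_mul_le hp1 a b
  rcases le_or_gt β (8 * α) with hc | hc
  · rcases hα0.eq_or_lt with h0 | hαpos
    · have hβ00 : β = 0 := by
        rw [← h0] at hc
        linarith
      rw [← h0, hβ00]
      have hz : P = 0 := by
        rw [hβ00, mul_zero] at hPle
        exact abs_nonpos_iff.mp hPle
      rw [hz]
      have := sq_nonneg (nrm p (a + b))
      norm_num
      linarith
    · -- main case
      have hsum : ∑ i, |a i| ^ p + p * P + p * (p - 1) / 2 *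
          (∑ i, (|a i| + |b i|) ^ (p - 2) * b i ^ 2) ≤ ∑ i, |(a + b) i| ^ p := by
        rw [hP, Finset.mul_sum, Finset.mul_sum, ← Finset.sum_add_distrib, ← Finset.sum_add_distrib]
        refine Finset.sum_le_sum fun i _ => ?_
        have := scalar hp1 hp2.le (a i) (b i)
        simp only [Pi.add_apply]
        linarith
      rw [← nrm_rpow hp0, ← nrm_rpow hp0] at hsum
      rw [← hα] at hsum
      set u := nrm p (a + b) with hu
      have hu0 : 0 ≤ u := nrm_nonneg p _
      have hS := sum_sq_ge hp1 hp2 b (fun i => |a i| + |b i|) (fun i => by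
        have := abs_nonneg (a i)
        linarith)
      set A := ∑ i, (|a i| + |b i|) ^ (p - 2) * b i ^ 2 with hA
      have hA0 : 0 ≤ A := Finset.sum_nonneg fun i _ => mul_nonneg
        (Real.rpow_nonneg (by positivity) _) (sq_nonneg _)
      have hC : nrm p (fun i => |a i| + |b i|) ≤ 9 * α := by
        have h1 : (fun i => |a i| + |b i|) = (fun i => |a i|) + (fun i => |b i|) := rfl
        rw [h1]
        refine (nrm_add_le hp1.le _ _).trans ?_
        rw [nrm_abs, nrm_abs, ← hα, ← hβ]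
        linarith
      have hC2 : nrm p (fun i => |a i| + |b i|) ^ (2 - p) ≤ 3 * α ^ (2 - p) := by
        calc nrm p (fun i => |a i| + |b i|) ^ (2 - p) ≤ (9 * α) ^ (2 - p) :=
              Real.rpow_le_rpow (nrm_nonneg _ _) hC (by linarith)
          _ = 9 ^ (2 - p) * α ^ (2 - p) := Real.mul_rpow (by norm_num) hα0
          _ ≤ 9 ^ (1 / 2 : ℝ) * α ^ (2 - p) := by
              gcongr
              · norm_num
              · linarith
          _ = 3 * α ^ (2 - p) := by
              have : (9 : ℝ) ^ (1 / 2 : ℝ) = 3 := by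
                rw [← Real.sqrt_eq_rpow]
                rw [show (9 : ℝ) = 3 ^ 2 by norm_num]
                exact Real.sqrt_sq (by norm_num)
              rw [this]
      have hb2 : β ^ 2 ≤ A * (3 * α ^ (2 - p)) :=
        hS.trans (mul_le_mul_of_nonneg_left hC2 hA0)
      -- Bernoulli
      have hαp : 0 < α ^ p := Real.rpow_pos_of_pos hαpos _
      have hber := one_add_mul_self_le_rpow_one_add (s := u ^ p / α ^ p - 1) (by
        have : 0 ≤ u ^ p / α ^ p := div_nonneg (Real.rpow_nonneg hu0 _) hαp.le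
        linarith) (p := 2 / p) (by
          rw [le_div_iff₀ hp0]
          linarith)
      have e1 : 1 + (u ^ p / α ^ p - 1) = u ^ p / α ^ p := by ring
      rw [e1, Real.div_rpow (Real.rpow_nonneg hu0 _) hαp.le, ← Real.rpow_mul hu0,
        ← Real.rpow_mul hα0] at hber
      have e2 : p * (2 / p) = 2 := by field_simp
      rw [e2, Real.rpow_two, Real.rpow_two] at hber
      have hα2 : 0 < α ^ 2 := by positivity
      have e3 : α ^ 2 = α ^ p * α ^ (2 - p) := by
        rw [← Real.rpow_add hαpos, ← Real.rpow_two]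
        congr 1
        ring
      have hα2p : 0 < α ^ (2 - p) := Real.rpow_pos_of_pos hαpos _
      have h5 : α ^ 2 + 2 / p * (α ^ (2 - p) * (u ^ p - α ^ p)) ≤ u ^ 2 := by
        have h6 := mul_le_mul_of_nonneg_left hber hα2.le
        have h7 : α ^ 2 * (u ^ 2 / α ^ 2) = u ^ 2 := by field_simp
        rw [h7] at h6
        refine le_trans (le_of_eq ?_) h6
        have h8 : α ^ 2 * (1 + 2 / p * (u ^ p / α ^ p - 1))
            = α ^ 2 + 2 / p * (α ^ 2 * (u ^ p / α ^ p - 1)) := by ring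
        rw [h8]
        congr 2
        rw [e3]
        field_simp
      have h9 : p * P + p * (p - 1) / 2 * A ≤ u ^ p - α ^ p := by linarith
      have h10 : α ^ 2 + 2 / p * (α ^ (2 - p) * (p * P + p * (p - 1) / 2 * A)) ≤ u ^ 2 := by
        refine le_trans ?_ h5
        gcongr
      have h11 : 2 / p * (α ^ (2 - p) * (p * P + p * (p - 1) / 2 * A))
          = 2 * (α ^ (2 - p) * P) + (p - 1) * (A * α ^ (2 - p)) := by
        field_simp
      rw [h11] at h10
      have h12 : 1 / 2 * (A * α ^ (2 - p)) ≤ (p - 1) * (A * α ^ (2 - p)) := by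
        gcongr
        linarith
      nlinarith
  · -- far case
    have hβpos : 0 < β := by linarith
    have h1 : β ≤ nrm p (a + b) + α := by
      have h2 := nrm_add_le hp1.le (a + b) (-a)
      have h3 : a + b + -a = b := by ring
      rw [h3, nrm_neg, ← hα, ← hβ] at h2
      exact h2
    have h4 : α ^ (2 - p) * P ≤ α * β := by
      rcases hα0.eq_or_lt with h0 | hαpos
      · rw [← h0, Real.zero_rpow (by linarith)]
        simp
      · calc α ^ (2 - p) * P ≤ α ^ (2 - p) * (α ^ (p - 1) * β) := by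
              gcongr
              exact (le_abs_self _).trans hPle
          _ = α * β := by
              rw [← mul_assoc, ← Real.rpow_add hαpos]
              have : 2 - p + (p - 1) = 1 := by ring
              rw [this, Real.rpow_one]
    have h5 : (β - α) ^ 2 ≤ nrm p (a + b) ^ 2 := by
      have : 0 ≤ β - α := by linarith
      have : β - α ≤ nrm p (a + b) := by linarith
      gcongr
    nlinarith

end Pool.Agent.Helper590_Face
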