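import Pool.Agent.Helper590_Face.Nrm
import Pool.Agent.Helper590_Face.Main

/-!
# The duality map on an `m`-dimensional subspace of `ℓ_p^n` is nearly linear
-/

set_option autoImplicit false

namespace Pool.Agent.Helper590_Face

open MeasureTheory Set Real Metric

variable {m n : ℕ}

/-- duality map of `ℓ_p^n` along `L` -/
noncomputable def jj (p : ℝ) (L : (Fin m → ℝ) →ₗ[ℝ] (Fin n → ℝ)) (x : Fin m → ℝ) (i : Fin n) : ℝ :=
  nrm p (L x) ^ (2 - p) * sp p (L x i)

/-- size of the `i`-th row -/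
noncomputable def lam (L : (Fin m → ℝ) →ₗ[ℝ] (Fin n → ℝ)) (i : Fin n) : ℝ :=
  ∑ k, |L (Pi.single k 1) i|

/-- linear approximation -/
noncomputable def j0 (p : ℝ) (L : (Fin m → ℝ) →ₗ[ℝ] (Fin n → ℝ)) (x : Fin m → ℝ) (i : Fin n) : ℝ :=
  lam L i ^ (p - 2) * L x i

theorem lam_nonneg (L : (Fin m → ℝ) →ₗ[ℝ] (Fin n → ℝ)) (i : Fin n) : 0 ≤ lam L i :=
  Finset.sum_nonneg fun _ _ => abs_nonneg _

theorem L_apply (L : (Fin m → ℝ) →ₗ[ℝ] (Fin n → ℝ)) (x : Fin m → ℝ) (i : Fin n) :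
    L x i = ∑ k, x k * L (Pi.single k 1) i := by
  have h : x = ∑ k, x k • (Pi.single k 1 : Fin m → ℝ) := by
    ext j
    simp [Pi.single_apply]
  conv_lhs => rw [h]
  rw [map_sum, Finset.sum_apply]
  simp

theorem abs_L_le (L : (Fin m → ℝ) →ₗ[ℝ] (Fin n → ℝ)) (x : Fin m → ℝ) (i : Fin n) :
    |L x i| ≤ lam L i * ‖x‖ := by
  rw [L_apply, lam, Finset.sum_mul]
  refine (Finset.abs_sum_le_sum_abs _ _).trans (Finset.sum_le_sum fun k _ => ?_)
  rw [abs_mul, mul_comm]
  have := norm_le_pi_norm x k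
  rw [Real.norm_eq_abs] at this
  gcongr

theorem nrm_lam_le {p : ℝ} (hp : 1 ≤ p) (L : (Fin m → ℝ) →ₗ[ℝ] (Fin n → ℝ))
    (hL : ∀ k, nrm p (L (Pi.single k 1)) ≤ 1) : nrm p (lam L) ≤ m := by
  have h1 : ∀ s : Finset (Fin m), nrm p (fun i => ∑ k ∈ s, |L (Pi.single k 1) i|) ≤ s.card := by
    intro s
    induction s using Finset.induction_on with
    | empty =>
      simp only [Finset.sum_empty, Finset.card_empty, Nat.cast_zero]
      exact (nrm_zero (by linarith)).le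
    | insert a s ha ih =>
      have h2 : (fun i => ∑ k ∈ insert a s, |L (Pi.single k 1) i|)
          = (fun i => |L (Pi.single a 1) i|) + fun i => ∑ k ∈ s, |L (Pi.single k 1) i| := by
        ext i
        rw [Finset.sum_insert ha]
        rfl
      rw [h2, Finset.card_insert_of_notMem ha]
      refine (nrm_add_le hp _ _).trans ?_
      rw [nrm_abs]
      have := hL a
      push_cast
      linarith
  have h4 := h1 Finset.univ
  have e : lam L = fun i => ∑ k ∈ Finset.univ, |L (Pi.single k 1) i| := rfl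
  rw [e]
  simpa using h4

theorem abs_jj_sub_le {p : ℝ} (hp : 1 < p) (hp2 : p < 2) (L : (Fin m → ℝ) →ₗ[ℝ] (Fin n → ℝ))
    (h1 : ∀ x, ‖x‖ ≤ nrm p (L x)) (h2 : ∀ x, nrm p (L x) ≤ m * ‖x‖) (x : Fin m → ℝ) (i : Fin n) :
    |jj p L x i - j0 p L x i| ≤ (2 - p) * m * ‖x‖ * lam L i ^ (p - 1) := by
  have hε : 0 < 2 - p := by linarith
  have hl := abs_L_le L x i
  rcases (lam_nonneg L i).eq_or_lt with h0 | h0
  · rw [← h0, zero_mul] at hl
    have hv : L x i = 0 := abs_nonpos_iff.mp hl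
    rw [jj, j0, hv, sp_zero, mul_zero, mul_zero, sub_zero, abs_zero]
    have := Real.rpow_nonneg (lam_nonneg L i) (p - 1)
    positivity
  set N := nrm p (L x) with hN
  have hN0 : 0 ≤ N := nrm_nonneg _ _
  rcases eq_or_ne (L x i) 0 with hv | hv
  · rw [jj, j0, hv, sp_zero, mul_zero, mul_zero, sub_zero, abs_zero]
    have := Real.rpow_nonneg (lam_nonneg L i) (p - 1)
    positivity
  set s := L x i / lam L i with hs
  have hvs : L x i = lam L i * s := by rw [hs]; field_simp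
  have hs0 : 0 < |s| := by
    rw [hs, abs_div]
    have : 0 < |L x i| := abs_pos.mpr hv
    have : 0 < |lam L i| := abs_pos.mpr h0.ne'
    positivity
  have hsx : |s| ≤ ‖x‖ := by
    rw [hs, abs_div, abs_of_pos h0, div_le_iff₀ h0]
    linarith
  have hsN : |s| ≤ N := hsx.trans (h1 x)
  have hN1 : 0 < N := lt_of_lt_of_le hs0 hsN
  have e1 : jj p L x i = lam L i ^ (p - 1) * s * (N / |s|) ^ (2 - p) := by
    rw [jj, sp, hvs, abs_mul, abs_of_pos h0, Real.mul_rpow h0.le hs0.le, ← hN,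
      Real.div_rpow hN0 hs0.le]
    have e2 : lam L i ^ (p - 1) = lam L i ^ (p - 2) * lam L i := by
      nth_rewrite 3 [← Real.rpow_one (lam L i)]
      rw [← Real.rpow_add h0]
      ring_nf
    have e3 : |s| ^ (p - 2) = (|s| ^ (2 - p))⁻¹ := by
      rw [← Real.rpow_neg hs0.le]
      ring_nf
    rw [e2, e3]
    field_simp
  have e4 : j0 p L x i = lam L i ^ (p - 1) * s := by
    rw [j0, hvs]
    have e2 : lam L i ^ (p - 1) = lam L i ^ (p - 2) * lam L i := by
      nth_rewrite 3 [← Real.rpow_one (lam L i)]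
      rw [← Real.rpow_add h0]
      ring_nf
    rw [e2]
    ring
  have hq : 1 ≤ N / |s| := by rw [le_div_iff₀ hs0]; linarith
  have hb := rpow_one_add_le_one_add_mul_self (s := N / |s| - 1) (by linarith) (p := 2 - p)
    (by linarith) (by linarith)
  have e5 : 1 + (N / |s| - 1) = N / |s| := by ring
  rw [e5] at hb
  have hb1 : 1 ≤ (N / |s|) ^ (2 - p) := Real.one_le_rpow hq (by linarith)
  have e6 : jj p L x i - j0 p L x i = lam L i ^ (p - 1) * (s * ((N / |s|) ^ (2 - p) - 1)) := by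
    rw [e1, e4]; ring
  rw [e6, abs_mul, abs_of_nonneg (Real.rpow_nonneg h0.le _), abs_mul,
    abs_of_nonneg (by linarith : (0 : ℝ) ≤ (N / |s|) ^ (2 - p) - 1)]
  have h3 : |s| * ((N / |s|) ^ (2 - p) - 1) ≤ (2 - p) * m * ‖x‖ := by
    calc |s| * ((N / |s|) ^ (2 - p) - 1) ≤ |s| * ((2 - p) * (N / |s| - 1)) := by
          gcongr
          linarith
      _ = (2 - p) * (N - |s|) := by field_simp
      _ ≤ (2 - p) * (m * ‖x‖) := by
          have := h2 x
          gcongr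
          linarith
      _ = _ := by ring
  calc lam L i ^ (p - 1) * (|s| * ((N / |s|) ^ (2 - p) - 1))
      ≤ lam L i ^ (p - 1) * ((2 - p) * m * ‖x‖) := by
        have := Real.rpow_nonneg h0.le (p - 1)
        gcongr
    _ = _ := by ring

theorem abs_sum_jj_sub_le {p : ℝ} (hp : 1 < p) (hp2 : p < 2) (L : (Fin m → ℝ) →ₗ[ℝ] (Fin n → ℝ))
    (hm : 0 < m) (h1 : ∀ x, ‖x‖ ≤ nrm p (L x)) (h2 : ∀ x, nrm p (L x) ≤ m * ‖x‖)
    (h3 : ∀ k, nrm p (L (Pi.single k 1)) ≤ 1) (x : Fin m → ℝ) (k : Fin n → ℝ) :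
    |(∑ i, jj p L x i * k i) - ∑ i, j0 p L x i * k i| ≤ (2 - p) * m ^ 2 * ‖x‖ * nrm p k := by
  rw [← Finset.sum_sub_distrib]
  have hm1 : (1 : ℝ) ≤ m := by exact_mod_cast hm
  calc |∑ i, (jj p L x i * k i - j0 p L x i * k i)|
      ≤ ∑ i, |jj p L x i * k i - j0 p L x i * k i| := Finset.abs_sum_le_sum_abs _ _
    _ ≤ ∑ i, (2 - p) * m * ‖x‖ * (|lam L i| ^ (p - 1) * |k i|) := by
        refine Finset.sum_le_sum fun i _ => ?_
        rw [← sub_mul, abs_mul, abs_of_nonneg (lam_nonneg L i), ← mul_assoc]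
        have := abs_jj_sub_le hp hp2 L h1 h2 x i
        gcongr
    _ = (2 - p) * m * ‖x‖ * ∑ i, |lam L i| ^ (p - 1) * |k i| := by rw [Finset.mul_sum]
    _ ≤ (2 - p) * m * ‖x‖ * (nrm p (lam L) ^ (p - 1) * nrm p k) := by
        have := sum_rpow_mul_le hp (lam L) k
        have : 0 ≤ 2 - p := by linarith
        gcongr
    _ ≤ (2 - p) * m * ‖x‖ * ((m : ℝ) * nrm p k) := by
        have h4 := nrm_lam_le hp.le L h3
        have h5 : nrm p (lam L) ^ (p - 1) ≤ (m : ℝ) ^ (p - 1) :=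
          Real.rpow_le_rpow (nrm_nonneg _ _) h4 (by linarith)
        have h6 : (m : ℝ) ^ (p - 1) ≤ (m : ℝ) ^ (1 : ℝ) :=
          Real.rpow_le_rpow_of_exponent_le hm1 (by linarith)
        rw [Real.rpow_one] at h6
        have h7 : nrm p (lam L) ^ (p - 1) ≤ m := h5.trans h6
        have := nrm_nonneg p k
        have : 0 ≤ 2 - p := by linarith
        gcongr
    _ = _ := by ring

theorem abs_jj_le {p : ℝ} (hp : 1 < p) (hp2 : p < 2) (L : (Fin m → ℝ) →ₗ[ℝ] (Fin n → ℝ))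
    (x : Fin m → ℝ) (i : Fin n) : |jj p L x i| ≤ nrm p (L x) := by
  rw [jj, abs_mul, abs_sp hp, abs_of_nonneg (Real.rpow_nonneg (nrm_nonneg _ _) _)]
  rcases (nrm_nonneg p (L x)).eq_or_lt with h | h
  · rw [← h, Real.zero_rpow (by linarith), zero_mul]
  · have h1 := abs_le_nrm (by linarith : 0 < p) (L x) i
    have h2 : |L x i| ^ (p - 1) ≤ nrm p (L x) ^ (p - 1) :=
      Real.rpow_le_rpow (abs_nonneg _) h1 (by linarith)
    calc nrm p (L x) ^ (2 - p) * |L x i| ^ (p - 1)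
        ≤ nrm p (L x) ^ (2 - p) * nrm p (L x) ^ (p - 1) := by gcongr
      _ = nrm p (L x) := by
          rw [← Real.rpow_add h]
          have : 2 - p + (p - 1) = 1 := by ring
          rw [this, Real.rpow_one]

theorem continuous_nrm {p : ℝ} (hp : 0 < p) : Continuous (fun x : Fin n → ℝ => nrm p x) := by
  unfold nrm
  refine Continuous.rpow_const ?_ (fun x => Or.inr (by positivity))
  refine continuous_finsetSum _ fun i _ => ?_
  exact Continuous.rpow_const (by fun_prop) (fun x => Or.inr hp.le)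

theorem continuous_L (L : (Fin m → ℝ) →ₗ[ℝ] (Fin n → ℝ)) : Continuous L :=
  LinearMap.continuous_of_finiteDimensional L

theorem measurable_jj (p : ℝ) (hp : 0 < p) (L : (Fin m → ℝ) →ₗ[ℝ] (Fin n → ℝ)) (i : Fin n) :
    Measurable (fun x => jj p L x i) := by
  unfold jj sp
  have h1 : Measurable (fun x => nrm p (L x)) :=
    ((continuous_nrm hp).comp (continuous_L L)).measurable
  have h2 : Measurable (fun x => L x i) :=
    ((continuous_apply i).comp (continuous_L L)).measurable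
  have h3 : Measurable (fun x => |L x i|) := by
    have := h2.norm
    simpa [Real.norm_eq_abs] using this
  exact (h1.pow_const _).mul ((h3.pow_const _).mul h2)

/-- the weight -/
noncomputable def wt (p : ℝ) (L : (Fin m → ℝ) →ₗ[ℝ] (Fin n → ℝ)) (x : Fin m → ℝ) : ℝ :=
  exp (-(nrm p (L x) ^ 2 / 2))

theorem wt_le {p : ℝ} (L : (Fin m → ℝ) →ₗ[ℝ] (Fin n → ℝ))
    (h1 : ∀ x, ‖x‖ ≤ nrm p (L x)) (x : Fin m → ℝ) : wt p L x ≤ exp (-(‖x‖ ^ 2 / 2)) := by
  apply Real.exp_le_exp.mpr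
  have : ‖x‖ ^ 2 ≤ nrm p (L x) ^ 2 := by
    have := h1 x
    gcongr
  linarith

theorem wt_cont {p : ℝ} (hp : 0 < p) (L : (Fin m → ℝ) →ₗ[ℝ] (Fin n → ℝ)) :
    Continuous (wt p L) := by
  have := (continuous_nrm hp).comp (continuous_L L)
  unfold wt
  exact Real.continuous_exp.comp ((this.pow 2).div_const 2).neg

/-- anything bounded by `C ‖x‖²` is integrable against the weight, with a bound -/
theorem integrable_wt {p : ℝ} (hp : 0 < p) (hm : 0 < m) (L : (Fin m → ℝ) →ₗ[ℝ] (Fin n → ℝ))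
    (h1 : ∀ x, ‖x‖ ≤ nrm p (L x)) {f : (Fin m → ℝ) → ℝ} (hf : Measurable f) {C : ℝ}
    (hC : ∀ x, |f x| ≤ C * ‖x‖ ^ 2) :
    Integrable (fun x => wt p L x * f x) ∧
      |∫ x, wt p L x * f x| ≤ 8 * C * ∫ x : Fin m → ℝ, exp (-(‖x‖ ^ 2 / 8)) := by
  have hw0 : ∀ x, 0 < wt p L x := fun x => exp_pos _
  have hC0 : 0 ≤ C := by
    have : Nonempty (Fin m) := ⟨⟨0, hm⟩⟩
    have h2 := hC (fun _ => 1)
    have h3 : ‖(fun _ : Fin m => (1 : ℝ))‖ = 1 := by simp
    rw [h3] at h2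
    have := abs_nonneg (f fun _ => 1)
    linarith
  have hb : ∀ x, ‖wt p L x * f x‖ ≤ 8 * C * exp (-(‖x‖ ^ 2 / 8)) := by
    intro x
    rw [norm_mul, Real.norm_of_nonneg (hw0 x).le, Real.norm_eq_abs]
    have h7 : ‖x‖ ^ 2 ≤ 8 * exp (‖x‖ ^ 2 / 8) := by
      linarith [Real.add_one_le_exp (‖x‖ ^ 2 / 8)]
    calc wt p L x * |f x| ≤ exp (-(‖x‖ ^ 2 / 2)) * (C * (8 * exp (‖x‖ ^ 2 / 8))) := by
          have := wt_le L h1 x
          have := hw0 x
          gcongr
          exact (hC x).trans (by gcongr)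
      _ = 8 * C * (exp (-(‖x‖ ^ 2 / 2)) * exp (‖x‖ ^ 2 / 8)) := by ring
      _ ≤ 8 * C * exp (-(‖x‖ ^ 2 / 8)) := by
          gcongr
          rw [← Real.exp_add]
          apply Real.exp_le_exp.mpr
          linarith [sq_nonneg ‖x‖]
  have hi : Integrable (fun x => 8 * C * exp (-(‖x‖ ^ 2 / 8)) : (Fin m → ℝ) → ℝ) :=
    (integrable_gauss hm).const_mul _
  constructor
  · exact hi.mono' ((wt_cont hp L).measurable.mul hf).aestronglyMeasurable
      (Filter.Eventually.of_forall hb)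
  · rw [← integral_const_mul, ← Real.norm_eq_abs]
    exact norm_integral_le_of_norm_le hi (Filter.Eventually.of_forall hb)

theorem star (m : ℕ) (hm : 0 < m) : ∃ C : ℝ, 0 < C ∧ ∀ (p : ℝ) (n : ℕ)
    (L : (Fin m → ℝ) →ₗ[ℝ] (Fin n → ℝ)), 3 / 2 ≤ p → p < 2 → (∀ x, ‖x‖ ≤ nrm p (L x)) →
    (∀ x, nrm p (L x) ≤ m * ‖x‖) → (∀ k, nrm p (L (Pi.single k 1)) ≤ 1) →
    ∀ k : Fin n → ℝ, (∀ a, ∫ x, wt p L x * ((∑ i, jj p L x i * k i) * x a) = 0) →
      ∀ x, |∑ i, jj p L x i * k i| ≤ (2 - p) * C * ‖x‖ * nrm p k := by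
  set Γ := ∫ x : Fin m → ℝ, exp (-(‖x‖ ^ 2 / 8)) with hΓ
  have hΓ0 : 0 ≤ Γ := integral_nonneg fun x => (exp_pos _).le
  set κ := exp (-(m : ℝ) ^ 2 / 2) * (1 / 2) ^ m / 4 with hκ
  have hκ0 : 0 < κ := by positivity
  have hm1 : (1 : ℝ) ≤ m := by exact_mod_cast hm
  refine ⟨m ^ 2 + 8 * Γ * m ^ 2 / κ, by positivity, ?_⟩
  intro p n L hp hp2 h1 h2 h3 k hk x
  have hp1 : 1 < p := by linarith
  have hp0 : 0 < p := by linarith
  have hε : 0 < 2 - p := by linarith
  set nk := nrm p k with hnk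
  have hnk0 : 0 ≤ nk := nrm_nonneg _ _
  set y : Fin m → ℝ := fun a => ∑ i, k i * lam L i ^ (p - 2) * L (Pi.single a 1) i with hy
  have hj0 : ∀ x, ∑ i, j0 p L x i * k i = ∑ a, x a * y a := by
    intro x
    simp only [j0, hy, Finset.mul_sum]
    rw [Finset.sum_comm]
    refine Finset.sum_congr rfl fun i _ => ?_
    rw [L_apply L x i, Finset.mul_sum, Finset.sum_mul]
    refine Finset.sum_congr rfl fun a _ => ?_
    ring
  -- the seminorm `|x·y|`
  set ρ : (Fin m → ℝ) → ℝ := fun x => |∑ a, x a * y a| with hρ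
  have hρc : Continuous ρ := by fun_prop
  obtain ⟨r, x₀, hr0, hx₀, hρr, -, hball⟩ := seminorm_ball hρc (by
    intro x z
    simp only [hρ, Pi.add_apply, add_mul, Finset.sum_add_distrib]
    exact abs_add_le _ _) (by
    intro c x
    simp only [hρ, Pi.smul_apply, smul_eq_mul, mul_assoc]
    rw [← Finset.mul_sum, abs_mul])
  have hdiff := abs_sum_jj_sub_le hp1 hp2 L hm h1 h2 h3
  -- integrate
  have hw0 : ∀ x, 0 < wt p L x := fun x => exp_pos _
  have hmeasjj : Measurable (fun x => ∑ i, jj p L x i * k i) :=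
    Finset.measurable_sum _ fun i _ => (measurable_jj p hp0 L i).mul_const _
  have hmeasy : Measurable (fun x : Fin m → ℝ => ∑ a, x a * y a) := by fun_prop
  have hI1 := integrable_wt hp0 hm L h1 (f := fun x => (∑ i, jj p L x i * k i
      - ∑ a, x a * y a) * (∑ a, x a * y a)) ((hmeasjj.sub hmeasy).mul hmeasy)
    (C := (2 - p) * m ^ 2 * nk * r) (by
      intro x
      rw [abs_mul]
      have h4 := hdiff x k
      rw [hj0] at h4
      have h5 : |∑ a, x a * y a| ≤ r * ‖x‖ := hρr x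
      calc |∑ i, jj p L x i * k i - ∑ a, x a * y a| * |∑ a, x a * y a|
          ≤ ((2 - p) * m ^ 2 * ‖x‖ * nk) * (r * ‖x‖) := by gcongr
        _ = _ := by ring)
  have hI2 := integrable_wt hp0 hm L h1 (f := fun x => (∑ a, x a * y a) ^ 2)
    (hmeasy.pow_const 2) (C := r ^ 2) (by
      intro x
      rw [abs_pow, ← mul_pow]
      have h5 : |∑ a, x a * y a| ≤ r * ‖x‖ := hρr x
      gcongr)
  have hjjx : ∀ a, Integrable (fun x => wt p L x * ((∑ i, jj p L x i * k i) * x a)) := by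
    intro a
    refine (integrable_wt hp0 hm L h1 (f := fun x => (∑ i, jj p L x i * k i) * x a)
      (C := (∑ i, m * |k i|)) (hmeasjj.mul (by fun_prop)) ?_).1
    intro x
    rw [abs_mul]
    have h4 : |x a| ≤ ‖x‖ := by
      have := norm_le_pi_norm x a
      rwa [Real.norm_eq_abs] at this
    have h5 : |∑ i, jj p L x i * k i| ≤ (∑ i, m * |k i|) * ‖x‖ := by
      refine (Finset.abs_sum_le_sum_abs _ _).trans ?_
      rw [Finset.sum_mul]
      refine Finset.sum_le_sum fun i _ => ?_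
      rw [abs_mul]
      have := (abs_jj_le hp1 hp2 L x i).trans (h2 x)
      calc |jj p L x i| * |k i| ≤ (m * ‖x‖) * |k i| := by gcongr
        _ = m * |k i| * ‖x‖ := by ring
    calc |∑ i, jj p L x i * k i| * |x a| ≤ ((∑ i, m * |k i|) * ‖x‖) * ‖x‖ := by gcongr
      _ = _ := by ring
  have hzero : ∫ x, wt p L x * ((∑ i, jj p L x i * k i) * (∑ a, x a * y a)) = 0 := by
    have e1 : ∀ x, wt p L x * ((∑ i, jj p L x i * k i) * (∑ a, x a * y a))
        = ∑ a, y a * (wt p L x * ((∑ i, jj p L x i * k i) * x a)) := by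
      intro x
      rw [Finset.mul_sum, Finset.mul_sum]
      refine Finset.sum_congr rfl fun a _ => ?_
      ring
    simp only [e1]
    rw [integral_finsetSum _ fun a _ => (hjjx a).const_mul _]
    refine Finset.sum_eq_zero fun a _ => ?_
    rw [integral_const_mul, hk a, mul_zero]
  have hsum : ∫ x, wt p L x * (∑ a, x a * y a) ^ 2
      = - ∫ x, wt p L x * ((∑ i, jj p L x i * k i - ∑ a, x a * y a) * (∑ a, x a * y a)) := by
    have e1 : ∀ x, wt p L x * ((∑ i, jj p L x i * k i) * (∑ a, x a * y a))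
        = wt p L x * (∑ a, x a * y a) ^ 2 +
          wt p L x * ((∑ i, jj p L x i * k i - ∑ a, x a * y a) * (∑ a, x a * y a)) := by
      intro x
      ring
    simp only [e1] at hzero
    rw [integral_add hI2.1 hI1.1] at hzero
    linarith
  have hup : ∫ x, wt p L x * (∑ a, x a * y a) ^ 2 ≤ 8 * ((2 - p) * m ^ 2 * nk * r) * Γ := by
    rw [hsum]
    exact (neg_le_abs _).trans hI1.2
  have hlo : κ * r ^ 2 ≤ ∫ x, wt p L x * (∑ a, x a * y a) ^ 2 := by
    have h4 := integral_ge_ball hI2.1 (fun x => by have := hw0 x; positivity)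
      ((3 / 4 : ℝ) • x₀) (c := exp (-(m : ℝ) ^ 2 / 2) * (r / 2) ^ 2) (by
        intro x hx
        have h5 := hball x hx
        have h6 : exp (-(m : ℝ) ^ 2 / 2) ≤ wt p L x := by
          apply Real.exp_le_exp.mpr
          have h7 : nrm p (L x) ≤ m := by
            refine (h2 x).trans ?_
            nlinarith [h5.2]
          have h8 := nrm_nonneg p (L x)
          have h9 : nrm p (L x) ^ 2 ≤ (m : ℝ) ^ 2 := by gcongr
          linarith
        have h10 : (r / 2) ^ 2 ≤ (∑ a, x a * y a) ^ 2 := by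
          rw [← sq_abs (∑ a, x a * y a)]
          have := h5.1
          gcongr
        have := (hw0 x).le
        gcongr)
    refine le_trans (le_of_eq ?_) h4
    rw [hκ]
    ring
  have hr : r ≤ (2 - p) * (8 * Γ * m ^ 2 / κ) * nk := by
    rcases hr0.eq_or_lt with h0 | h0
    · rw [← h0]
      positivity
    · have h4 : κ * r ^ 2 ≤ 8 * ((2 - p) * m ^ 2 * nk * r) * Γ := hlo.trans hup
      have h5 : (κ * r) * r ≤ (8 * ((2 - p) * m ^ 2 * nk) * Γ) * r := by nlinarith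
      have h6 := le_of_mul_le_mul_right h5 h0
      have h7 : (2 - p) * (8 * Γ * m ^ 2 / κ) * nk = (8 * ((2 - p) * m ^ 2 * nk) * Γ) / κ := by
        field_simp
      rw [h7, le_div_iff₀ hκ0]
      linarith
  have h4 := hdiff x k
  rw [hj0] at h4
  have h5 : |∑ a, x a * y a| ≤ r * ‖x‖ := hρr x
  have h6 : |∑ i, jj p L x i * k i| ≤ |∑ i, jj p L x i * k i - ∑ a, x a * y a|
      + |∑ a, x a * y a| := by
    have := abs_add_le (∑ i, jj p L x i * k i - ∑ a, x a * y a) (∑ a, x a * y a)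
    rwa [sub_add_cancel] at this
  calc |∑ i, jj p L x i * k i| ≤ (2 - p) * m ^ 2 * ‖x‖ * nk + r * ‖x‖ := by linarith
    _ ≤ (2 - p) * m ^ 2 * ‖x‖ * nk + ((2 - p) * (8 * Γ * m ^ 2 / κ) * nk) * ‖x‖ := by gcongr
    _ = _ := by ring

end Pool.Agent.Helper590_Face
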