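import Mathlib

/-!
# Uniform convexity of `ℓ_p`, `3/2 ≤ p < 2`
-/

set_option autoImplicit false

namespace Pool.Agent.Helper590_Face

open Set Real Finset

/-- signed power -/
noncomputable def sp (p t : ℝ) : ℝ := |t| ^ (p - 2) * t

theorem sp_neg (p t : ℝ) : sp p (-t) = -sp p t := by
  simp [sp]

theorem sp_zero (p : ℝ) : sp p 0 = 0 := by simp [sp]

theorem sp_of_nonneg {p t : ℝ} (hp : 1 < p) (ht : 0 ≤ t) : sp p t = t ^ (p - 1) := by
  rcases ht.eq_or_lt with rfl | h
  · rw [sp_zero, Real.zero_rpow (by linarith)]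
  · rw [sp, abs_of_pos h]
    nth_rewrite 2 [← Real.rpow_one t]
    rw [← Real.rpow_add h]
    ring_nf

theorem abs_sp {p : ℝ} (hp : 1 < p) (t : ℝ) : |sp p t| = |t| ^ (p - 1) := by
  rcases le_total 0 t with h | h
  · rw [sp_of_nonneg hp h, abs_of_nonneg h, abs_of_nonneg (Real.rpow_nonneg h _)]
  · have h2 : sp p t = - sp p (-t) := by rw [sp_neg, neg_neg]
    rw [h2, sp_of_nonneg hp (by linarith), abs_neg, abs_of_nonneg (Real.rpow_nonneg (by linarith) _),
      abs_of_nonpos h]

/-- monotonicity on `[0, M]` -/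
theorem sp_mono_aux {p M x y : ℝ} (hp : 1 < p) (hp2 : p ≤ 2) (hy : 0 ≤ y) (hyx : y < x)
    (hx : x ≤ M) : (p - 1) * M ^ (p - 2) * (x - y) ≤ sp p x - sp p y := by
  have hx0 : 0 < x := lt_of_le_of_lt hy hyx
  have hM : 0 < M := lt_of_lt_of_le hx0 hx
  rw [sp_of_nonneg hp hx0.le, sp_of_nonneg hp hy]
  have h1 := rpow_one_add_le_one_add_mul_self (s := y / x - 1) (by
    have : 0 ≤ y / x := by positivity
    linarith) (p := p - 1) (by linarith) (by linarith)
  have e1 : 1 + (y / x - 1) = y / x := by ring
  rw [e1, Real.div_rpow hy hx0.le] at h1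
  have hxp : 0 < x ^ (p - 1) := Real.rpow_pos_of_pos hx0 _
  have h2 : y ^ (p - 1) ≤ x ^ (p - 1) * (1 + (p - 1) * (y / x - 1)) := by
    have := (div_le_iff₀ hxp).mp h1
    linarith
  have h3 : x ^ (p - 1) = x ^ (p - 2) * x := by
    nth_rewrite 3 [← Real.rpow_one x]
    rw [← Real.rpow_add hx0]
    ring_nf
  have h4 : x ^ (p - 1) * (1 + (p - 1) * (y / x - 1)) = x ^ (p - 1)
      - (p - 1) * x ^ (p - 2) * (x - y) := by
    rw [h3]
    field_simp
    ring
  have h5 : M ^ (p - 2) ≤ x ^ (p - 2) := by
    exact Real.rpow_le_rpow_of_nonpos hx0 hx (by linarith)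
  have h6 : (p - 1) * M ^ (p - 2) * (x - y) ≤ (p - 1) * x ^ (p - 2) * (x - y) := by
    have : 0 ≤ p - 1 := by linarith
    have : 0 ≤ x - y := by linarith
    gcongr
  linarith

theorem sp_mono {p M x y : ℝ} (hp : 1 < p) (hp2 : p ≤ 2) (hy : |y| ≤ M) (hyx : y ≤ x)
    (hx : |x| ≤ M) : (p - 1) * M ^ (p - 2) * (x - y) ≤ sp p x - sp p y := by
  rcases hyx.eq_or_lt with rfl | hyx
  · simp
  have hx' := abs_le.mp hx
  have hy' := abs_le.mp hy
  rcases le_or_gt 0 y with h0 | h0
  · exact sp_mono_aux hp hp2 h0 hyx hx'.2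
  rcases le_or_gt x 0 with h1 | h1
  · have := sp_mono_aux (p := p) (M := M) (x := -y) (y := -x) hp hp2 (by linarith) (by linarith)
      (by linarith)
    rw [sp_neg, sp_neg] at this
    linarith
  · have e1 := sp_mono_aux (p := p) (M := M) (x := x) (y := 0) hp hp2 le_rfl h1 hx'.2
    have e2 := sp_mono_aux (p := p) (M := M) (x := -y) (y := 0) hp hp2 le_rfl (by linarith)
      (by linarith)
    rw [sp_neg] at e2
    rw [sp_zero] at e1 e2
    linarith

/-- scalar inequality -/
theorem scalar {p : ℝ} (hp : 1 < p) (hp2 : p ≤ 2) (a b : ℝ) :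
    |a| ^ p + p * sp p a * b + p * (p - 1) / 2 * (|a| + |b|) ^ (p - 2) * b ^ 2 ≤ |a + b| ^ p := by
  set M := |a| + |b| with hM
  set c := p * (p - 1) / 2 * M ^ (p - 2) with hc
  let h : ℝ → ℝ := fun s => |a + s * b| ^ p - s * (p * sp p a * b) - c * (s * b) ^ 2
  have hder : ∀ s, HasDerivAt h ((p * |a + s * b| ^ (p - 2) * (a + s * b)) * b
      - (p * sp p a * b) - c * (2 * (s * b) * b)) s := by
    intro s
    have h1 := hasDerivAt_abs_rpow (a + s * b) hp
    have h2 : HasDerivAt (fun s : ℝ => a + s * b) b s := by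
      simpa using ((hasDerivAt_id s).mul_const b).const_add a
    have h3 := h1.comp s h2
    have h4 : HasDerivAt (fun s : ℝ => s * (p * sp p a * b)) (p * sp p a * b) s := by
      simpa using (hasDerivAt_id s).mul_const (p * sp p a * b)
    have h5 : HasDerivAt (fun s : ℝ => c * (s * b) ^ 2) (c * (2 * (s * b) * b)) s := by
      have h6 : HasDerivAt (fun s : ℝ => s * b) b s := by
        simpa using (hasDerivAt_id s).mul_const b
      have h7 := (h6.pow 2).const_mul c
      refine h7.congr_deriv ?_
      simp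
    exact (h3.sub h4).sub h5
  have hmono : MonotoneOn h (Icc 0 1) := by
    refine monotoneOn_of_deriv_nonneg (convex_Icc 0 1) ?_ ?_ ?_
    · exact fun s _ => (hder s).continuousAt.continuousWithinAt
    · exact fun s _ => (hder s).differentiableAt.differentiableWithinAt
    · intro s hs
      rw [interior_Icc] at hs
      rw [(hder s).deriv]
      have hs0 := hs.1
      have hs1 := hs.2
      have k1 : |a + s * b| ≤ M := by
        refine (abs_add_le _ _).trans ?_
        rw [hM, abs_mul, abs_of_pos hs0]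
        have : s * |b| ≤ |b| := by
          have := abs_nonneg b
          nlinarith
        linarith
      have k2 : |a| ≤ M := by
        rw [hM]
        linarith [abs_nonneg b]
      have k3 : p * |a + s * b| ^ (p - 2) * (a + s * b) = p * sp p (a + s * b) := by
        rw [sp]; ring
      rw [k3]
      rcases le_total 0 b with hb | hb
      · have h1 := sp_mono (p := p) (M := M) (x := a + s * b) (y := a) hp hp2 k2
          (by nlinarith) k1
        have h2 : 0 ≤ p * b * (sp p (a + s * b) - sp p a
          - (p - 1) * M ^ (p - 2) * (a + s * b - a)) := by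
          have : 0 ≤ p * b := by positivity
          exact mul_nonneg this (by linarith)
        have h3 : p * sp p (a + s * b) * b - p * sp p a * b - c * (2 * (s * b) * b)
          = p * b * (sp p (a + s * b) - sp p a - (p - 1) * M ^ (p - 2) * (a + s * b - a)) := by
          rw [hc]; ring
        rw [h3]
        exact h2
      · have h1 := sp_mono (p := p) (M := M) (x := a) (y := a + s * b) hp hp2 k1
          (by nlinarith) k2
        have h2 : 0 ≤ p * (-b) * (sp p a - sp p (a + s * b)
          - (p - 1) * M ^ (p - 2) * (a - (a + s * b))) := by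
          have : 0 ≤ p * (-b) := by
            have : 0 ≤ -b := by linarith
            positivity
          exact mul_nonneg this (by linarith)
        have h3 : p * sp p (a + s * b) * b - p * sp p a * b - c * (2 * (s * b) * b)
          = p * (-b) * (sp p a - sp p (a + s * b) - (p - 1) * M ^ (p - 2) * (a - (a + s * b))) := by
          rw [hc]; ring
        rw [h3]
        exact h2
  have hfin := hmono (left_mem_Icc.mpr zero_le_one) (right_mem_Icc.mpr zero_le_one) zero_le_one
  simp only [h] at hfin
  simp only [zero_mul, add_zero, one_mul, sub_zero] at hfin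
  norm_num at hfin
  have : c * b ^ 2 = p * (p - 1) / 2 * M ^ (p - 2) * b ^ 2 := by rw [hc]
  linarith

end Pool.Agent.Helper590_Face
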